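import Mathlib

/-!
# Lifting idempotents which commute with a finite group
-/

set_option autoImplicit false

namespace Pool.Agent.U981.EQ

section average

variable {R : Type*} [Ring R] [Algebra ℚ R] {G : Type*} [Group G] [Fintype G]

/-- The average of the conjugates of `x` under the group `G`. -/
noncomputable def avg (ρ : G →* R) (x : R) : R :=
  (Fintype.card G : ℚ)⁻¹ • ∑ g, ρ g * x * ρ g⁻¹

omit [Fintype G] [Algebra ℚ R] in
lemma rho_inv (ρ : G →* R) (g : G) : ρ g⁻¹ * ρ g = 1 := by
  rw [← map_mul, inv_mul_cancel, map_one]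

omit [Fintype G] [Algebra ℚ R] in
lemma rho_inv' (ρ : G →* R) (g : G) : ρ g * ρ g⁻¹ = 1 := by
  rw [← map_mul, mul_inv_cancel, map_one]

lemma avg_comm (ρ : G →* R) (x : R) (h : G) : ρ h * avg ρ x = avg ρ x * ρ h := by
  unfold avg
  rw [mul_smul_comm, smul_mul_assoc, Finset.mul_sum, Finset.sum_mul]
  congr 1
  rw [← Equiv.sum_comp (Equiv.mulLeft h) (fun g => ρ g * x * ρ g⁻¹ * ρ h)]
  apply Finset.sum_congr rfl
  intro g _
  simp only [Equiv.coe_mulLeft, mul_inv_rev, map_mul]
  have h1 : ρ h * ρ g * x * (ρ g⁻¹ * ρ h⁻¹) * ρ h = ρ h * ρ g * x * ρ g⁻¹ * (ρ h⁻¹ * ρ h) := by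
    simp only [mul_assoc]
  rw [h1, rho_inv, mul_one]
  simp only [mul_assoc]

lemma map_avg {S : Type*} [Ring S] (f : R →+* S) (ρ : G →* R) (x : R)
    (h : ∀ g, f (ρ g) * f x = f x * f (ρ g)) : f (avg ρ x) = f x := by
  unfold avg
  have h1 : ∀ g ∈ (Finset.univ : Finset G), f (ρ g * x * ρ g⁻¹) = f x := by
    intro g _
    rw [map_mul, map_mul, h, mul_assoc, ← map_mul, rho_inv', map_one, mul_one]
  have h2 : f (∑ g, ρ g * x * ρ g⁻¹) = f (Fintype.card G • x) := by
    rw [map_sum, Finset.sum_congr rfl h1, Finset.sum_const, Finset.card_univ, map_nsmul]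
  rw [← smul_one_mul, map_mul, h2, ← map_mul, smul_one_mul, ← Nat.cast_smul_eq_nsmul ℚ,
    smul_smul, inv_mul_cancel₀ (by exact_mod_cast Fintype.card_ne_zero), one_smul]

/-- Complete orthogonal idempotents which commute with the finite group `G` lift along a nil ideal
to complete orthogonal idempotents which commute with `G`. -/
theorem lift_equivariant {S : Type*} [Ring S] (f : R →+* S)
    (hnil : ∀ x, f x = 0 → IsNilpotent x) (ρ : G →* R) {I : Type*} [Fintype I] {e : I → S}
    (he : CompleteOrthogonalIdempotents e) (hr : ∀ i, ∃ a, f a = e i)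
    (hc : ∀ g i, f (ρ g) * e i = e i * f (ρ g)) :
    ∃ e' : I → R, CompleteOrthogonalIdempotents e' ∧ (∀ i, f (e' i) = e i) ∧
      ∀ g i, ρ g * e' i = e' i * ρ g := by
  let R₁ : Subring R := Subring.centralizer (Set.range ρ)
  let f₁ : R₁ →+* S := f.comp R₁.subtype
  have hnil₁ : ∀ x ∈ RingHom.ker f₁, IsNilpotent x := by
    intro x hx
    obtain ⟨n, hn⟩ := hnil (x : R) hx
    exact ⟨n, Subtype.ext (by rw [SubmonoidClass.coe_pow]; exact hn)⟩
  have hr₁ : ∀ i, e i ∈ f₁.range := by
    intro i
    obtain ⟨a, ha⟩ := hr i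
    refine ⟨⟨avg ρ a, ?_⟩, ?_⟩
    · rw [Subring.mem_centralizer_iff]
      rintro _ ⟨g, rfl⟩
      exact avg_comm ρ a g
    · change f (avg ρ a) = e i
      rw [map_avg f ρ a (fun g => by rw [ha]; exact hc g i), ha]
  obtain ⟨e', h1, h2⟩ := CompleteOrthogonalIdempotents.lift_of_isNilpotent_ker f₁ hnil₁ he hr₁
  refine ⟨fun i => (e' i : R), h1.map R₁.subtype, fun i => congrFun h2 i, fun g i => ?_⟩
  exact Subring.mem_centralizer_iff.1 (e' i).2 (ρ g) ⟨g, rfl⟩

end average

section triangular

variable {R : Type*} [Ring R] {m : ℕ} {p : Fin m → R}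

/-- The elements with zero diagonal entries, for a triangular ring. -/
def diagIdeal (hp : CompleteOrthogonalIdempotents p) (ht : ∀ (x : R) (i j : Fin m), i < j →
    p i * x * p j = 0) : TwoSidedIdeal R :=
  TwoSidedIdeal.mk' {x | ∀ i, p i * x * p i = 0}
    (fun i => by rw [mul_zero, zero_mul])
    (fun {x y} hx hy i => by rw [mul_add, add_mul, hx i, hy i, add_zero])
    (fun {x} hx i => by rw [mul_neg, neg_mul, hx i, neg_zero])
    (fun {x y} hy i => by
      have h1 : p i * (x * y) * p i = ∑ j, (p i * x * p j) * (p j * y * p i) := by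
        have h2 : p i * (x * y) * p i = p i * x * (∑ j, p j) * (y * p i) := by
          rw [hp.complete, mul_one]; simp only [mul_assoc]
        rw [h2, Finset.mul_sum, Finset.sum_mul]
        apply Finset.sum_congr rfl
        intro j _
        have h3 : (p i * x * p j) * (p j * y * p i) = p i * x * (p j * p j) * (y * p i) := by
          simp only [mul_assoc]
        rw [h3, (hp.idem j).eq]
      rw [h1]
      apply Finset.sum_eq_zero
      intro j _
      rcases lt_trichotomy i j with h | h | h
      · rw [ht x i j h, zero_mul]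
      · subst h; rw [hy i, mul_zero]
      · rw [ht y j i h, mul_zero])
    (fun {x y} hx i => by
      have h1 : p i * (x * y) * p i = ∑ j, (p i * x * p j) * (p j * y * p i) := by
        have h2 : p i * (x * y) * p i = p i * x * (∑ j, p j) * (y * p i) := by
          rw [hp.complete, mul_one]; simp only [mul_assoc]
        rw [h2, Finset.mul_sum, Finset.sum_mul]
        apply Finset.sum_congr rfl
        intro j _
        have h3 : (p i * x * p j) * (p j * y * p i) = p i * x * (p j * p j) * (y * p i) := by
          simp only [mul_assoc]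
        rw [h3, (hp.idem j).eq]
      rw [h1]
      apply Finset.sum_eq_zero
      intro j _
      rcases lt_trichotomy i j with h | h | h
      · rw [ht x i j h, zero_mul]
      · subst h; rw [hx i, zero_mul]
      · rw [ht y j i h, mul_zero])

lemma mem_diagIdeal (hp : CompleteOrthogonalIdempotents p) (ht : ∀ (x : R) (i j : Fin m), i < j →
    p i * x * p j = 0) (x : R) : x ∈ diagIdeal hp ht ↔ ∀ i, p i * x * p i = 0 := by
  unfold diagIdeal
  rw [TwoSidedIdeal.mem_mk']
  rfl

/-- Strictly triangular elements are nilpotent. -/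
lemma nilpotent_of_mem (hp : CompleteOrthogonalIdempotents p) (ht : ∀ (x : R) (i j : Fin m), i < j →
    p i * x * p j = 0) {x : R} (hx : ∀ i, p i * x * p i = 0) : IsNilpotent x := by
  have key : ∀ n : ℕ, ∀ i j : Fin m, (i : ℕ) < j + n → p i * x ^ n * p j = 0 := by
    intro n
    induction n with
    | zero =>
      intro i j hij
      rw [pow_zero, mul_one, hp.mul_eq, if_neg (by intro h; subst h; omega)]
    | succ n ih =>
      intro i j hij
      have h1 : p i * x ^ (n + 1) * p j = ∑ l, (p i * x ^ n * p l) * (p l * x * p j) := by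
        have h2 : p i * x ^ (n + 1) * p j = p i * x ^ n * (∑ l, p l) * (x * p j) := by
          rw [hp.complete, mul_one, pow_succ]; simp only [mul_assoc]
        rw [h2, Finset.mul_sum, Finset.sum_mul]
        apply Finset.sum_congr rfl
        intro l _
        have h3 : (p i * x ^ n * p l) * (p l * x * p j) = p i * x ^ n * (p l * p l) * (x * p j) := by
          simp only [mul_assoc]
        rw [h3, (hp.idem l).eq]
      rw [h1]
      apply Finset.sum_eq_zero
      intro l _
      by_cases h2 : (i : ℕ) < l + n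
      · rw [ih i l h2, zero_mul]
      · have h3 : (l : ℕ) ≤ j := by omega
        rcases lt_or_eq_of_le h3 with h4 | h4
        · rw [ht x l j h4, mul_zero]
        · have h5 : l = j := Fin.ext h4
          subst h5
          rw [hx l, mul_zero]
  refine ⟨m, ?_⟩
  have h1 : x ^ m = (∑ i, p i) * x ^ m * (∑ j, p j) := by rw [hp.complete, one_mul, mul_one]
  rw [h1, Finset.sum_mul, Finset.sum_mul]
  apply Finset.sum_eq_zero
  intro i _
  rw [Finset.mul_sum]
  apply Finset.sum_eq_zero
  intro j _
  exact key m i j (by have := i.2; omega)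

variable [Algebra ℚ R] {G : Type*} [Group G] [Fintype G]

/-- In a triangular ring, complete orthogonal idempotents can be moved, modulo elements with zero
diagonal entries, to complete orthogonal idempotents which commute with a given finite group. -/
theorem exists_equivariant (hp : CompleteOrthogonalIdempotents p)
    (ht : ∀ (x : R) (i j : Fin m), i < j → p i * x * p j = 0) (ρ : G →* R) :
    ∃ q : Fin m → R, CompleteOrthogonalIdempotents q ∧ (∀ i j, p j * (q i - p i) * p j = 0) ∧
      ∀ g i, ρ g * q i = q i * ρ g := by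
  let N := diagIdeal hp ht
  let f : R →+* N.ringCon.Quotient := N.ringCon.mk'
  have hf : ∀ x y, f x = f y ↔ x - y ∈ N := fun x y => by
    rw [← TwoSidedIdeal.rel_iff]
    exact Quotient.eq''
  have hf0 : ∀ x, f x = 0 ↔ x ∈ N := fun x => by
    have h1 := hf x 0
    rw [map_zero, sub_zero] at h1
    exact h1
  obtain ⟨q, h1, h2, h3⟩ := lift_equivariant f (fun x hx => nilpotent_of_mem hp ht
    ((mem_diagIdeal hp ht x).1 ((hf0 x).1 hx))) ρ (hp.map f) (fun i => ⟨p i, rfl⟩) (by
      intro g i
      change f (ρ g) * f (p i) = f (p i) * f (ρ g)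
      rw [← map_mul, ← map_mul, hf, mem_diagIdeal hp ht]
      intro j
      rw [mul_sub, sub_mul]
      by_cases hij : i = j
      · subst hij
        have e1 : p i * (ρ g * p i) * p i = p i * ρ g * (p i * p i) := by simp only [mul_assoc]
        have e2 : p i * (p i * ρ g) * p i = p i * p i * ρ g * p i := by simp only [mul_assoc]
        rw [e1, e2, (hp.idem i).eq, sub_self]
      · have e1 : p j * (ρ g * p i) * p j = p j * ρ g * (p i * p j) := by simp only [mul_assoc]
        have e2 : p j * (p i * ρ g) * p j = p j * p i * ρ g * p j := by simp only [mul_assoc]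
        rw [e1, e2, hp.mul_eq, hp.mul_eq, if_neg hij, if_neg (Ne.symm hij), mul_zero, zero_mul,
          zero_mul, sub_zero])
  refine ⟨q, h1, fun i j => ?_, h3⟩
  have h4 := (hf (q i) (p i)).1 (h2 i)
  exact (mem_diagIdeal hp ht _).1 h4 j

end triangular

end Pool.Agent.U981.EQ
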