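import Pool.Agent.U981.EQ.Defs
import Pool.Agent.U981.EQ.Ring
import Pool.Agent.U840.SY.Sum
import Pool.Agent.X308.S.Good

/-!
# Graphs, products, actions
-/

set_option autoImplicit false

open CategoryTheory AlgebraicGeometry

universe u v w

namespace Pool.Agent.U981.EQ

open Pool.Agent.H914 Pool.Agent.H914.VarClass Pool.Agent.H914.VarClass.Obj Pool.Agent.W492.BB
  Pool.Agent.W550.Corr Pool.Agent.TH133 Pool.Agent.X308.S Pool.Agent.Y107

set_option linter.unusedSectionVars false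

variable {k : Type u} [Field k] {𝒱 : VarClass k}

section chow

variable {C : TheoryData.{u, v, 0} 𝒱 ℚ} [hC : IsChowProj C] {X Y Z W : 𝒱.Obj}

include hC

lemma comp_graph (Γ : C.A (X.prod Y)) (g : Y ⟶ Z) :
    C.comp Γ (C.graph g) = C.push (prodMap (𝟙 X) g) Γ := by
  rw [comp_eq_extR C, extR_graph C]

lemma graph_comp_graph (f : X ⟶ Y) (g : Y ⟶ Z) :
    C.comp (C.graph f) (C.graph g) = C.graph (f ≫ g) := by
  rw [comp_graph, TheoryData.graph, ← C.push_comp, TheoryData.graph]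
  congr 1
  have e1 : Obj.lift (𝟙 X) f ≫ prodMap (𝟙 X) g = Obj.lift (𝟙 X) (f ≫ g) := by
    apply prod_ext <;> simp
  rw [e1]

lemma tens_graph (f : X ⟶ Y) (g : Z ⟶ W) :
    tens C (C.graph f) (C.graph g) = C.graph (prodMap f g) := by
  have e0 : C.ext (X := X) (Y := Z) 1 1 = 1 := by rw [TheoryData.ext, map_one, map_one, one_mul]
  rw [tens_eq C, pull_iso C (mid X Z Y W) (mid X Y Z W) (mid_mid _ _ _ _) (mid_mid _ _ _ _),
    TheoryData.graph, TheoryData.graph, TheoryData.graph, ← push_ext C, ← C.push_comp, e0]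
  congr 1
  have e1 : prodMap (Obj.lift (𝟙 X) f) (Obj.lift (𝟙 Z) g) ≫ mid X Y Z W =
      Obj.lift (𝟙 (X.prod Z)) (prodMap f g) := by
    apply prod_ext
    · apply prod_ext <;> simp [mid, prodMap, comp_lift]
    · apply prod_ext <;> simp [mid, prodMap, comp_lift]
  rw [e1]

lemma graph_mem (f : X ⟶ Y) (h : X.dim = Y.dim) : C.graph f ∈ C.gr (X.prod Y) X.dim := by
  rw [TheoryData.graph]
  have h1 := C.push_mem (Obj.lift (𝟙 X) f) (C.one_mem X)
  have e : (0 : ℤ) + 1 * (((X.prod Y).dim : ℤ) - X.dim) = X.dim := by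
    rw [dim_prod]; push_cast; omega
  rwa [e] at h1

end chow

end Pool.Agent.U981.EQ
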