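import Pool.Agent.U981.EQ.PwDefs
import Pool.Agent.U981.EQ.Geo

/-!
# Powers: Chow-Kunneth decompositions and permutations of the factors
-/

set_option autoImplicit false

open CategoryTheory AlgebraicGeometry

universe u v w

namespace Pool.Agent.U981.EQ

open Pool.Agent.H914 Pool.Agent.H914.VarClass Pool.Agent.H914.VarClass.Obj Pool.Agent.W492.BB
  Pool.Agent.W550.Corr Pool.Agent.TH133 Pool.Agent.X308.S Pool.Agent.Y107 Pool.Agent.Y133.Half

set_option linter.unusedSectionVars false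

variable {k : Type u} [Field k] {𝒱 : VarClass k}

section cat

variable {X Z Z' : 𝒱.Obj}

lemma plift_fst {n : ℕ} (f : Z ⟶ pw X n) (g : Z ⟶ X) : plift f g ≫ pfst X n = f :=
  Obj.lift_fst f g

lemma plift_snd {n : ℕ} (f : Z ⟶ pw X n) (g : Z ⟶ X) : plift f g ≫ psnd X n = g :=
  Obj.lift_snd f g

lemma pext {n : ℕ} {f g : Z ⟶ pw X (n + 1)} (h1 : f ≫ pfst X n = g ≫ pfst X n)
    (h2 : f ≫ psnd X n = g ≫ psnd X n) : f = g := prod_ext h1 h2

lemma prj_zero (i : Fin 1) : prj X 0 i = 𝟙 X := rfl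

lemma prj_last (n : ℕ) : prj X (n + 1) (Fin.last _) = psnd X n := by
  rw [prj, Fin.lastCases_last]

lemma prj_castSucc (n : ℕ) (i : Fin (n + 1)) :
    prj X (n + 1) i.castSucc = pfst X n ≫ prj X n i := by
  rw [prj, Fin.lastCases_castSucc]

lemma liftN_prj : ∀ (n : ℕ) (f : Fin (n + 1) → (Z ⟶ X)) (i : Fin (n + 1)),
    liftN X n f ≫ prj X n i = f i
  | 0, f, i => by
    have : i = 0 := by omega
    subst this
    exact Category.comp_id (f 0)
  | n + 1, f, i => by
    refine Fin.lastCases ?_ (fun j => ?_) i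
    · rw [prj_last, liftN, plift_snd]
    · rw [prj_castSucc, liftN, ← Category.assoc, plift_fst, liftN_prj n]

lemma hom_ext_prj : ∀ (n : ℕ) {f g : Z ⟶ pw X n}, (∀ i, f ≫ prj X n i = g ≫ prj X n i) → f = g
  | 0, f, g, h => by
    have := h 0
    rw [prj_zero] at this
    exact (Category.comp_id f).symm.trans (this.trans (Category.comp_id g))
  | n + 1, f, g, h => by
    apply pext
    · apply hom_ext_prj n
      intro i
      rw [Category.assoc, Category.assoc, ← prj_castSucc]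
      exact h _
    · rw [← prj_last]
      exact h _

lemma tau_prj (n : ℕ) (σ : Equiv.Perm (Fin (n + 1))) (i : Fin (n + 1)) :
    tau X n σ ≫ prj X n i = prj X n (σ i) := liftN_prj n _ i

lemma tau_one (n : ℕ) : tau X n 1 = 𝟙 _ := by
  apply hom_ext_prj
  intro i
  rw [tau_prj, Category.id_comp]
  rfl

lemma tau_mul (n : ℕ) (σ ρ : Equiv.Perm (Fin (n + 1))) :
    tau X n (σ * ρ) = tau X n σ ≫ tau X n ρ := by
  apply hom_ext_prj
  intro i
  rw [tau_prj, Category.assoc, tau_prj, tau_prj]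
  rfl

end cat

section chow

variable {C : TheoryData.{u, v, 0} 𝒱 ℚ} [hC : IsChowProj C] {X Y Z V V' : 𝒱.Obj}

/-- The product of the pull-backs of the `Γ i` by the maps `(p i, q i)`. -/
noncomputable def Lp (C : TheoryData.{u, v, 0} 𝒱 ℚ) {n : ℕ} (p q : Fin (n + 1) → (V ⟶ X))
    (Γ : Fin (n + 1) → C.A (X.prod X)) : C.A V :=
  (List.ofFn fun i => C.pull (Obj.lift (p i) (q i)) (Γ i)).prod

include hC

lemma pull_Lp {n : ℕ} (f : V' ⟶ V) (p q : Fin (n + 1) → (V ⟶ X))
    (Γ : Fin (n + 1) → C.A (X.prod X)) :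
    C.pull f (Lp C p q Γ) = Lp C (fun i => f ≫ p i) (fun i => f ≫ q i) Γ := by
  unfold Lp
  rw [map_list_prod, List.map_ofFn]
  congr 2
  funext i
  rw [Function.comp_apply, ← C.pull_comp, comp_lift]

lemma Lp_perm {n : ℕ} (σ : Equiv.Perm (Fin (n + 1))) (p q : Fin (n + 1) → (V ⟶ X))
    (Γ : Fin (n + 1) → C.A (X.prod X)) :
    Lp C (p ∘ σ) (q ∘ σ) (Γ ∘ σ) = Lp C p q Γ := by
  unfold Lp
  refine List.Perm.prod_eq' ?_ ?_
  · exact Equiv.Perm.ofFn_comp_perm σ (fun i => C.pull (Obj.lift (p i) (q i)) (Γ i))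
  · exact List.pairwise_of_forall fun a b => ch_comm C a b

lemma Lp_succ {n : ℕ} (p q : Fin (n + 1 + 1) → (V ⟶ X))
    (Γ : Fin (n + 1 + 1) → C.A (X.prod X)) :
    Lp C p q Γ = Lp C (fun i => p i.castSucc) (fun i => q i.castSucc) (fun i => Γ i.castSucc) *
      C.pull (Obj.lift (p (Fin.last _)) (q (Fin.last _))) (Γ (Fin.last _)) := by
  unfold Lp
  rw [List.ofFn_succ', List.concat_eq_append, List.prod_append, List.prod_singleton]

lemma tensN_eq : ∀ (n : ℕ) (Γ : Fin (n + 1) → C.A (X.prod X)),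
    tensN C X n Γ = Lp C (fun i => fst (pw X n) (pw X n) ≫ prj X n i)
      (fun i => snd (pw X n) (pw X n) ≫ prj X n i) Γ
  | 0, Γ => by
    unfold Lp
    rw [List.ofFn_succ, List.ofFn_zero, List.prod_singleton]
    have e : Obj.lift (fst X X ≫ 𝟙 X) (snd X X ≫ 𝟙 X) = 𝟙 (X.prod X) := by
      rw [Category.comp_id, Category.comp_id]
      exact lift_eta
    exact ((congrArg (fun f => C.pull f (Γ 0)) e).trans (C.pull_id _)).symm
  | n + 1, Γ => by
    rw [Lp_succ]
    have h1 : tensN C X (n + 1) Γ =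
        C.pull (prodMap (pfst X n) (pfst X n)) (tensN C X n fun i => Γ i.castSucc) *
          C.pull (prodMap (psnd X n) (psnd X n)) (Γ (Fin.last _)) := rfl
    rw [h1, tensN_eq n, pull_Lp]
    congr 1
    · congr 1
      · funext i
        rw [prj_castSucc, ← Category.assoc, ← Category.assoc, prodMap_fst]
      · funext i
        rw [prj_castSucc, ← Category.assoc, ← Category.assoc, prodMap_snd]
    · rw [prj_last]
      rfl

lemma graph_comp (f : X ⟶ Y) (Γ : C.A (Y.prod Z)) :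
    C.comp (C.graph f) Γ = C.pull (prodMap f (𝟙 Z)) Γ := by
  rw [TheoryData.comp, TheoryData.graph, C.base_fst, ← C.proj_left, ← C.push_comp, map_one,
    mul_one, ← C.pull_comp]
  have e1 : prodMap (Obj.lift (𝟙 X) f) (𝟙 Z) ≫ t13 X Y Z = 𝟙 _ := by
    apply prod_ext <;> simp [t13]
  have e2 : prodMap (Obj.lift (𝟙 X) f) (𝟙 Z) ≫ t23 X Y Z = prodMap f (𝟙 Z) := by
    apply prod_ext <;> simp [t23]
  rw [e1, e2, C.push_id]

/-- Permutations of the factors. -/
lemma tau_tensN (n : ℕ) (σ : Equiv.Perm (Fin (n + 1))) (Γ : Fin (n + 1) → C.A (X.prod X)) :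
    C.comp (C.graph (tau X n σ)) (tensN C X n Γ) =
      C.comp (tensN C X n (Γ ∘ σ.symm)) (C.graph (tau X n σ)) := by
  have h1 : tau X n σ⁻¹ ≫ tau X n σ = 𝟙 _ := by rw [← tau_mul, inv_mul_cancel, tau_one]
  have h2 : tau X n σ ≫ tau X n σ⁻¹ = 𝟙 _ := by rw [← tau_mul, mul_inv_cancel, tau_one]
  have h3 : prodMap (𝟙 (pw X n)) (tau X n σ⁻¹) ≫ prodMap (𝟙 (pw X n)) (tau X n σ) = 𝟙 _ := by
    apply prod_ext
    · simp
    · rw [Category.assoc, prodMap_snd, ← Category.assoc, prodMap_snd, Category.assoc, h1,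
        Category.comp_id, Category.id_comp]
  have h4 : prodMap (𝟙 (pw X n)) (tau X n σ) ≫ prodMap (𝟙 (pw X n)) (tau X n σ⁻¹) = 𝟙 _ := by
    apply prod_ext
    · simp
    · rw [Category.assoc, prodMap_snd, ← Category.assoc, prodMap_snd, Category.assoc, h2,
        Category.comp_id, Category.id_comp]
  rw [graph_comp, comp_graph, ← pull_iso C _ _ h3 h4, tensN_eq, tensN_eq, pull_Lp, pull_Lp,
    ← Lp_perm σ (fun i => prodMap (𝟙 (pw X n)) (tau X n σ⁻¹) ≫ fst (pw X n) (pw X n) ≫ prj X n i)]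
  congr 1
  · funext i
    simp only [Function.comp_apply]
    rw [← Category.assoc, prodMap_fst, Category.assoc, tau_prj, ← Category.assoc, prodMap_fst,
      Category.comp_id]
  · funext i
    simp only [Function.comp_apply]
    rw [← Category.assoc, prodMap_snd, Category.comp_id, ← Category.assoc, prodMap_snd,
      Category.assoc, tau_prj]
    congr 2
    exact (σ.symm_apply_apply i).symm
  · funext i
    simp only [Function.comp_apply]
    rw [σ.symm_apply_apply]

/-- Composition of external products. -/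
lemma tensN_comp : ∀ (n : ℕ) (Γ Δ : Fin (n + 1) → C.A (X.prod X)),
    C.comp (tensN C X n Γ) (tensN C X n Δ) = tensN C X n fun i => C.comp (Γ i) (Δ i)
  | 0, Γ, Δ => rfl
  | n + 1, Γ, Δ => by
    have h1 : C.comp (tensN C X (n + 1) Γ) (tensN C X (n + 1) Δ) =
        tens C (X := pw X n) (Y := pw X n) (Z := X) (W := X)
          (C.comp (tensN C X n fun i => Γ i.castSucc) (tensN C X n fun i => Δ i.castSucc))
          (C.comp (Γ (Fin.last _)) (Δ (Fin.last _))) := tens_comp' _ _ _ _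
    rw [h1, tensN_comp n]
    rfl

/-- The decomposition of the power. -/
noncomputable def pwCK (C : TheoryData.{u, v, 0} 𝒱 ℚ) {X : 𝒱.Obj} (π : ℕ → C.A (X.prod X))
    (n m : ℕ) : C.A ((pw X n).prod (pw X n)) :=
  ∑ f ∈ Finset.piAntidiag Finset.univ m, tensN C X n fun i => π (f i)

lemma pwCK_zero (π : ℕ → C.A (X.prod X)) : pwCK C π 0 = π := by
  funext m
  unfold pwCK
  have h1 : Finset.piAntidiag (Finset.univ : Finset (Fin 1)) m = {fun _ => m} := by
    ext f
    rw [Finset.mem_piAntidiag, Finset.mem_singleton]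
    constructor
    · rintro ⟨h, -⟩
      funext i
      have : i = 0 := by omega
      subst this
      simpa using h
    · rintro rfl
      exact ⟨by simp, fun i _ => Finset.mem_univ i⟩
  rw [h1, Finset.sum_singleton]
  rfl

lemma pwCK_succ (π : ℕ → C.A (X.prod X)) (n : ℕ) :
    pwCK C π (n + 1) = prodCK (X := pw X n) (Z := X) C (pwCK C π n) π := by
  funext m
  have h1 : prodCK (X := pw X n) (Z := X) C (pwCK C π n) π m =
      ∑ i ∈ Finset.range (m + 1), ∑ f ∈ Finset.piAntidiag (Finset.univ : Finset (Fin (n + 1))) i,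
        tens C (X := pw X n) (Y := pw X n) (Z := X) (W := X) (tensN C X n fun i => π (f i))
          (π (m - i)) := by
    unfold prodCK pwCK
    exact Finset.sum_congr rfl fun i _ => tens_sum_left _ _ _
  rw [h1, Finset.sum_sigma']
  unfold pwCK
  refine Finset.sum_nbij' (fun f => ⟨∑ i : Fin (n + 1), f i.castSucc, fun i => f i.castSucc⟩)
    (fun s => Fin.snoc s.2 (m - s.1)) ?_ ?_ ?_ ?_ ?_
  · intro f hf
    rw [Finset.mem_piAntidiag, Fin.sum_univ_castSucc] at hf
    rw [Finset.mem_sigma, Finset.mem_range, Finset.mem_piAntidiag]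
    exact ⟨by have := hf.1; simp only; omega, rfl, fun i _ => Finset.mem_univ i⟩
  · rintro ⟨i, f⟩ hs
    rw [Finset.mem_sigma, Finset.mem_range, Finset.mem_piAntidiag] at hs
    rw [Finset.mem_piAntidiag]
    refine ⟨?_, fun i _ => Finset.mem_univ i⟩
    rw [Fin.sum_univ_castSucc]
    simp only [Fin.snoc_castSucc, Fin.snoc_last]
    have h2 := hs.1
    have h3 := hs.2.1
    simp only at h2 h3
    omega
  · intro f hf
    rw [Finset.mem_piAntidiag, Fin.sum_univ_castSucc] at hf
    have h2 := hf.1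
    funext i
    refine Fin.lastCases ?_ (fun j => ?_) i
    · simp only [Fin.snoc_last]
      omega
    · simp only [Fin.snoc_castSucc]
  · rintro ⟨i, f⟩ hs
    rw [Finset.mem_sigma, Finset.mem_range, Finset.mem_piAntidiag] at hs
    have h3 := hs.2.1
    simp only at h3
    subst h3
    simp only [Fin.snoc_castSucc]
  · intro f hf
    rw [Finset.mem_piAntidiag, Fin.sum_univ_castSucc] at hf
    have h2 := hf.1
    have h3 : m - ∑ i : Fin (n + 1), f i.castSucc = f (Fin.last _) := by omega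
    simp only
    rw [h3]
    rfl

end chow

section weil

variable {C : TheoryData.{u, v, 0} 𝒱 ℚ} [hC : IsChowProj C] {K : Type w} [Field K]
  {H : WeilTheoryData.{u, v, w} C K} [hH : IsWeilProj H] {X Y Z W : 𝒱.Obj}

include hC hH

lemma isCK_pw {π : ℕ → C.A (X.prod X)} (h : IsCK H X π) : ∀ n, IsCK H (pw X n) (pwCK C π n)
  | 0 => by
    rw [pwCK_zero]
    exact h
  | n + 1 => by
    rw [pwCK_succ]
    exact (isCK_pw h n).prod h

omit hH in
lemma tau_pwCK (π : ℕ → C.A (X.prod X)) (n m : ℕ) (σ : Equiv.Perm (Fin (n + 1))) :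
    C.comp (C.graph (tau X n σ)) (pwCK C π n m) = C.comp (pwCK C π n m) (C.graph (tau X n σ)) := by
  unfold pwCK
  rw [comp_sum, sum_comp]
  refine Finset.sum_nbij' (fun f => f ∘ σ.symm) (fun f => f ∘ σ) ?_ ?_ ?_ ?_ ?_
  · intro f hf
    rw [Finset.mem_piAntidiag] at hf ⊢
    exact ⟨(Equiv.sum_comp σ.symm f).trans hf.1, fun i _ => Finset.mem_univ i⟩
  · intro f hf
    rw [Finset.mem_piAntidiag] at hf ⊢
    exact ⟨(Equiv.sum_comp σ f).trans hf.1, fun i _ => Finset.mem_univ i⟩
  · intro f _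
    funext i
    simp
  · intro f _
    funext i
    simp
  · intro f _
    exact tau_tensN n σ _

omit hH in
/-- Powers. -/
theorem eqCK_power {G' : Type} {ρ : G' → C.A (X.prod X)} {π : ℕ → C.A (X.prod X)}
    (hg : ∀ g i, C.comp (ρ g) (π i) = C.comp (π i) (ρ g)) (n : ℕ)
    {τ : C.A ((pw X n).prod (pw X n))} {σ : Equiv.Perm (Fin (n + 1))} {u : Fin (n + 1) → G'}
    (hτ : τ = C.comp (C.graph (tau X n σ)) (tensN C X n fun i => ρ (u i))) (m : ℕ) :
    C.comp τ (pwCK C π n m) = C.comp (pwCK C π n m) τ := by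
  have h1 : C.comp (tensN C X n fun i => ρ (u i)) (pwCK C π n m) =
      C.comp (pwCK C π n m) (tensN C X n fun i => ρ (u i)) := by
    unfold pwCK
    rw [comp_sum, sum_comp]
    refine Finset.sum_congr rfl fun f _ => ?_
    rw [tensN_comp, tensN_comp]
    congr 1
    funext i
    exact hg _ _
  rw [hτ, comp_assoc, h1, ← comp_assoc, tau_pwCK, comp_assoc]

end weil

end Pool.Agent.U981.EQ
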