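import Pool.Agent.U981.EQ.Hyp
import Pool.Agent.U981.EQ.Pw
import Pool.Agent.Y107.SDMul

/-!
# Products, sums of twists, summands, quotients
-/

set_option autoImplicit false

open CategoryTheory AlgebraicGeometry

universe u v w

namespace Pool.Agent.U981.EQ

open Pool.Agent.H914 Pool.Agent.H914.VarClass Pool.Agent.H914.VarClass.Obj Pool.Agent.W492.BB
  Pool.Agent.W550.Corr Pool.Agent.TH133 Pool.Agent.X308.S Pool.Agent.Y107 Pool.Agent.Y133.Half

set_option linter.unusedSectionVars false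

variable {k : Type u} [Field k] {𝒱 : VarClass k}

section weil

variable {C : TheoryData.{u, v, 0} 𝒱 ℚ} [hC : IsChowProj C] {K : Type w} [Field K]
  {H : WeilTheoryData.{u, v, w} C K} [hH : IsWeilProj H] {X Y Z : 𝒱.Obj}
  {G : Type} [Group G]

include hC hH

/-- Products. -/
theorem hasEqCK_prod {ρ : G → C.A (X.prod X)} {σ : G → C.A (Y.prod Y)} (h : HasEqCK H ρ)
    (h' : HasEqCK H σ) : HasEqCK H (fun g => tens C (ρ g) (σ g)) := by
  obtain ⟨π, hπ, hg⟩ := h
  obtain ⟨π', hπ', hg'⟩ := h'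
  refine ⟨prodCK C π π', hπ.prod hπ', fun g n => ?_⟩
  unfold prodCK
  rw [comp_sum, sum_comp]
  refine Finset.sum_congr rfl fun i _ => ?_
  rw [tens_comp', tens_comp', hg, hg']

section sum

variable {T : Type} [Fintype T] {W : T → 𝒱.Obj} {r : T → ℕ} {a : ∀ t, C.A (Z.prod (W t))}
  {b : ∀ t, C.A ((W t).prod Z)} {G' : T → Type} {ρ : ∀ t, G' t → C.A ((W t).prod (W t))}

omit hH in
/-- `b` is stable under the idempotents `a b`. -/
lemma sum_b (h : IsSum C Z W r a b ρ) (t : T) : C.comp (b t) (C.comp (a t) (b t)) = b t := by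
  classical
  have h1 : C.comp (b t) (∑ t', C.comp (a t') (b t')) = b t := by rw [h.sum, comp_dg]
  rw [comp_sum, Finset.sum_eq_single t] at h1
  · exact h1
  · intro t' _ hne
    rw [← comp_assoc C, h.orth t t' hne.symm, zero_comp]
  · intro h2
    exact absurd (Finset.mem_univ t) h2

omit hH in
lemma sum_a (h : IsSum C Z W r a b ρ) (t : T) : C.comp (C.comp (a t) (b t)) (a t) = a t := by
  classical
  have h1 : C.comp (∑ t', C.comp (a t') (b t')) (a t) = a t := by rw [h.sum, dg_comp]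
  rw [sum_comp, Finset.sum_eq_single t] at h1
  · exact h1
  · intro t' _ hne
    rw [comp_assoc C, h.orth t' t hne, comp_zero]
  · intro h2
    exact absurd (Finset.mem_univ t) h2

omit hH in
/-- Multiplication of diagonal operators. -/
lemma diag_comp (h : IsSum C Z W r a b ρ) (x y : ∀ t, C.A ((W t).prod (W t)))
    (hx : ∀ t, C.comp (C.comp (b t) (a t)) (y t) = C.comp (y t) (C.comp (b t) (a t))) :
    C.comp (∑ t, C.comp (C.comp (a t) (x t)) (b t)) (∑ t, C.comp (C.comp (a t) (y t)) (b t)) =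
      ∑ t, C.comp (C.comp (a t) (C.comp (x t) (y t))) (b t) := by
  classical
  have key : ∀ t t', C.comp (C.comp (C.comp (a t) (x t)) (b t))
      (C.comp (C.comp (a t') (y t')) (b t')) =
      C.comp (C.comp (C.comp (a t) (x t)) (C.comp (b t) (a t')))
        (C.comp (y t') (b t')) := by
    intro t t'
    simp only [comp_assoc C]
  rw [sum_comp]
  refine Finset.sum_congr rfl fun t _ => ?_
  rw [comp_sum]
  simp_rw [key]
  rw [Finset.sum_eq_single t]
  · have e1 : C.comp (C.comp (C.comp (a t) (x t)) (C.comp (b t) (a t)))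
        (C.comp (y t) (b t)) = C.comp (C.comp (a t) (x t))
          (C.comp (C.comp (C.comp (b t) (a t)) (y t)) (b t)) := by
      simp only [comp_assoc C]
    have e2 : C.comp (C.comp (a t) (x t)) (C.comp (C.comp (y t) (C.comp (b t) (a t))) (b t)) =
        C.comp (C.comp (a t) (C.comp (x t) (y t))) (C.comp (b t) (C.comp (a t) (b t))) := by
      simp only [comp_assoc C]
    rw [e1, hx, e2, sum_b h]
  · intro t' _ hne
    rw [h.orth t t' hne.symm, comp_zero, zero_comp]
  · intro h1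
    exact absurd (Finset.mem_univ t) h1

/-- The degree of the action on cohomology. -/
lemma actH_gr' {e m : ℤ} {Γ : C.A (X.prod Y)} (hΓ : Γ ∈ C.gr (X.prod Y) (X.dim + e)) {x : H.A X}
    (hx : x ∈ H.gr X m) : H.act (H.cl Γ) x ∈ H.gr Y (m + 2 * e) :=
  Pool.Agent.U840.SY.actH_gr hΓ hx

omit hH in
lemma commutes_span {G : Type} {ρ : G → C.A (X.prod X)} {x e : C.A (X.prod X)}
    (hx : ∀ g, C.comp (ρ g) x = C.comp x (ρ g)) (he : e ∈ Submodule.span ℚ (Set.range ρ)) :
    C.comp e x = C.comp x e := by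
  induction he using Submodule.span_induction with
  | mem y hy =>
    obtain ⟨g, rfl⟩ := hy
    exact hx g
  | zero => rw [zero_comp, comp_zero]
  | add y z _ _ hy hz => rw [add_comp, comp_add, hy, hz]
  | smul q y _ hy => rw [smul_comp, comp_smul, hy]

/-- Sums of twisted summands. -/
theorem hasEqCK_sum (h : IsSum C Z W r a b ρ) {τ : G → C.A (Z.prod Z)}
    (hτ : ∀ g t, ∃ g' : G' t, C.comp (τ g) (a t) = C.comp (a t) (ρ t g') ∧
        C.comp (b t) (τ g) = C.comp (ρ t g') (b t))
    (hW : ∀ t, ∃ π, IsCK H (W t) π ∧ ∀ g i, C.comp (ρ t g) (π i) = C.comp (π i) (ρ t g)) :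
    HasEqCK H τ := by
  classical
  choose π hπ hg using hW
  let p : ℕ → C.A (Z.prod Z) := fun i =>
    ∑ t, C.comp (C.comp (a t) (sh (π t) (2 * r t) i)) (b t)
  have hsh : ∀ t g i, C.comp (ρ t g) (sh (π t) (2 * r t) i) =
      C.comp (sh (π t) (2 * r t) i) (ρ t g) := by
    intro t g i
    unfold sh
    split_ifs
    · exact hg t g _
    · rw [comp_zero, zero_comp]
  have hcomm : ∀ t i, C.comp (C.comp (b t) (a t)) (sh (π t) (2 * r t) i) =
      C.comp (sh (π t) (2 * r t) i) (C.comp (b t) (a t)) := fun t i =>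
    commutes_span (fun g => hsh t g i) (h.mem t)
  have hp : ∀ i j, C.comp (p i) (p j) = if i = j then p i else 0 := by
    intro i j
    simp only [p]
    rw [diag_comp h _ _ fun t => hcomm t j]
    split_ifs with hij
    · subst hij
      exact Finset.sum_congr rfl fun t _ => by rw [sh_comp (hπ t), if_pos rfl]
    · exact Finset.sum_eq_zero fun t _ => by rw [sh_comp (hπ t), if_neg hij, comp_zero, zero_comp]
  have hda : ∀ t, a t ∈ C.gr (Z.prod (W t)) ((Z.dim : ℤ) + -(r t : ℤ)) := fun t => by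
    rw [← sub_eq_add_neg]; exact h.deg_a t
  have hact : ∀ (i : ℕ) (m : ℤ) (x : H.A Z), x ∈ H.gr Z m →
      H.act (H.cl (p i)) x = if m = i then x else 0 := by
    intro i m x hx
    have h1 : H.act (H.cl (p i)) x = ∑ t,
        H.act (H.cl (b t)) (H.act (H.cl (sh (π t) (2 * r t) i)) (H.act (H.cl (a t)) x)) := by
      simp only [p]
      rw [map_sum, act_sum]
      refine Finset.sum_congr rfl fun t _ => ?_
      rw [actH_comp, actH_comp]
    have h2 : ∀ t, H.act (H.cl (sh (π t) (2 * r t) i)) (H.act (H.cl (a t)) x) =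
        if m = i then H.act (H.cl (a t)) x else 0 := by
      intro t
      rw [sh_act (hπ t) _ _ _ (actH_gr' (hda t) hx)]
      by_cases hm : m = i
      · rw [if_pos hm, if_pos (by push_cast; omega)]
      · rw [if_neg hm, if_neg (by push_cast; omega)]
    rw [h1]
    split_ifs with hm
    · have h4 : H.act (H.cl (dg C Z)) x = x := actH_dg H x
      rw [← h.sum, map_sum, act_sum] at h4
      conv_rhs => rw [← h4]
      refine Finset.sum_congr rfl fun t _ => ?_
      rw [h2 t, if_pos hm, actH_comp]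
    · refine Finset.sum_eq_zero fun t _ => ?_
      rw [h2 t, if_neg hm, H.act_map_zero]
  refine ⟨p, ⟨?_, ?_, ?_, ?_, ?_, ?_, ?_⟩, ?_⟩
  · intro i
    refine Submodule.sum_mem _ fun t _ => ?_
    have h3 : sh (π t) (2 * r t) i ∈ C.gr ((W t).prod (W t)) (((W t).dim : ℤ) + 0) := by
      rw [add_zero]; exact sh_mem (hπ t) _ _
    have h2 := comp_mem C (comp_mem C (hda t) h3) (h.deg_b t)
    have e : (Z.dim : ℤ) + (-(r t : ℤ) + 0 + (r t : ℤ)) = Z.dim := by ring
    rw [e] at h2
    exact h2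
  · intro i hi
    refine Finset.sum_eq_zero fun t _ => ?_
    have := h.le t
    rw [sh_out (hπ t) _ _ (by omega), comp_zero, zero_comp]
  · intro i
    rw [hp, if_pos rfl]
  · intro i j hij
    rw [hp, if_neg hij]
  · rw [← h.sum]
    simp only [p]
    rw [Finset.sum_comm]
    refine Finset.sum_congr rfl fun t _ => ?_
    have := h.le t
    rw [← sum_comp, ← comp_sum, sh_sum (hπ t) (2 * r t) (2 * Z.dim + 1) (by omega), comp_dg]
  · intro i x hx
    rw [hact i i x hx, if_pos rfl]
  · intro i m x hm hx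
    rw [hact i m x hx, if_neg hm]
  · intro g i
    simp only [p]
    rw [comp_sum, sum_comp]
    refine Finset.sum_congr rfl fun t _ => ?_
    obtain ⟨g', ha, hb⟩ := hτ g t
    have e1 : C.comp (τ g) (C.comp (C.comp (a t) (sh (π t) (2 * r t) i)) (b t)) =
        C.comp (C.comp (C.comp (τ g) (a t)) (sh (π t) (2 * r t) i)) (b t) := by
      simp only [comp_assoc C]
    have e2 : C.comp (C.comp (C.comp (a t) (ρ t g')) (sh (π t) (2 * r t) i)) (b t) =
        C.comp (C.comp (a t) (C.comp (ρ t g') (sh (π t) (2 * r t) i))) (b t) := by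
      simp only [comp_assoc C]
    have e3 : C.comp (C.comp (a t) (C.comp (sh (π t) (2 * r t) i) (ρ t g'))) (b t) =
        C.comp (C.comp (a t) (sh (π t) (2 * r t) i)) (C.comp (ρ t g') (b t)) := by
      simp only [comp_assoc C]
    rw [e1, ha, e2, hsh, e3, ← hb]
    simp only [comp_assoc C]

end sum

section power

/-- The fundamental class is not zero. -/
lemma one_ne_zero' : (1 : C.A X) ≠ 0 := by
  intro h
  have h1 := congrArg (fun x => H.cl x) h
  simp only [map_one, map_zero] at h1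
  exact hH.one_ne_zero X h1

include H in
/-- Isomorphic varieties have the same dimension. -/
lemma dim_eq_of_iso {f : X ⟶ Y} {g : Y ⟶ X} (h1 : f ≫ g = 𝟙 X) (h2 : g ≫ f = 𝟙 Y) :
    X.dim = Y.dim := by
  by_contra hne
  rcases Nat.lt_or_gt_of_ne hne with h | h
  · have h3 : C.push g 1 = 1 := hC.toHasIso.push_one g f h2 h1
    have h4 := C.push_mem g (C.one_mem Y)
    rw [h3, C.gr_neg X _ (by push_cast; omega)] at h4
    exact one_ne_zero' (H := H) ((Submodule.mem_bot _).1 h4)
  · have h3 : C.push f 1 = 1 := hC.toHasIso.push_one f g h1 h2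
    have h4 := C.push_mem f (C.one_mem X)
    rw [h3, C.gr_neg Y _ (by push_cast; omega)] at h4
    exact one_ne_zero' (H := H) ((Submodule.mem_bot _).1 h4)

omit hC hH in
lemma prodMap_id' (X Y : 𝒱.Obj) : prodMap (𝟙 X) (𝟙 Y) = 𝟙 (X.prod Y) := by
  apply prod_ext <;> simp

omit hH in
lemma Lp_eq {P : 𝒱.Obj} {n : ℕ} (p : Fin (n + 1) → (P ⟶ X)) (Γ : Fin (n + 1) → C.A (X.prod X)) :
    (List.ofFn fun i => C.pull (prodMap (p i) (p i)) (Γ i)).prod =
      Lp C (fun i => fst P P ≫ p i) (fun i => snd P P ≫ p i) Γ := rfl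

omit hH in
/-- Change of the model of a power. -/
lemma conj_Lp {P : 𝒱.Obj} {n : ℕ} {p : Fin (n + 1) → (P ⟶ X)} (φ : P ⟶ pw X n) (ψ : pw X n ⟶ P)
    (h1 : φ ≫ ψ = 𝟙 P) (h2 : ψ ≫ φ = 𝟙 _) (hψ : ∀ i, ψ ≫ p i = prj X n i)
    (Γ : Fin (n + 1) → C.A (X.prod X)) :
    C.comp (C.comp (C.graph ψ) (Lp C (fun i => fst P P ≫ p i) (fun i => snd P P ≫ p i) Γ))
      (C.graph φ) = tensN C X n Γ := by
  have h3 : prodMap (𝟙 (pw X n)) ψ ≫ prodMap (𝟙 (pw X n)) φ = 𝟙 _ := by
    rw [prodMap_comp, h2, Category.comp_id, prodMap_id']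
  have h4 : prodMap (𝟙 (pw X n)) φ ≫ prodMap (𝟙 (pw X n)) ψ = 𝟙 _ := by
    rw [prodMap_comp, h1, Category.comp_id, prodMap_id']
  rw [graph_comp, comp_graph, ← pull_iso C _ _ h3 h4, pull_Lp, pull_Lp, tensN_eq]
  congr 1
  · funext i
    rw [← Category.assoc, ← Category.assoc, prodMap_comp, prodMap_fst, Category.id_comp,
      Category.assoc, hψ]
  · funext i
    rw [← Category.assoc, ← Category.assoc, prodMap_comp, prodMap_snd, Category.comp_id,
      Category.assoc, hψ]

/-- Powers. -/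
theorem hasEqCK_power {P : 𝒱.Obj} {G' : Type} {ρ : G' → C.A (X.prod X)} {n : ℕ}
    {p : Fin (n + 1) → (P ⟶ X)} {τ : G → C.A (P.prod P)} (hp : IsPower p)
    (hτ : ∀ g, ∃ (σ : Equiv.Perm (Fin (n + 1))) (u : Fin (n + 1) → G') (t : P ⟶ P),
      (∀ i, t ≫ p i = p (σ i)) ∧ τ g = C.comp (C.graph t)
        (List.ofFn fun i => C.pull (prodMap (p i) (p i)) (ρ (u i))).prod)
    (h : ∃ π, IsCK H X π ∧ ∀ g i, C.comp (ρ g) (π i) = C.comp (π i) (ρ g)) : HasEqCK H τ := by
  obtain ⟨π, hπ, hg⟩ := h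
  have hφ : ∀ i, liftN X n p ≫ prj X n i = p i := liftN_prj n p
  obtain ⟨ψ, hψ, -⟩ := hp (pw X n) (prj X n)
  have h2 : ψ ≫ liftN X n p = 𝟙 _ := by
    apply hom_ext_prj
    intro i
    rw [Category.assoc, hφ, hψ, Category.id_comp]
  have h1 : liftN X n p ≫ ψ = 𝟙 P := by
    obtain ⟨χ, -, hu⟩ := hp P p
    rw [hu (liftN X n p ≫ ψ) (fun i => by rw [Category.assoc, hψ, hφ]),
      hu (𝟙 P) (fun i => Category.id_comp _)]
  have hdim : P.dim = (pw X n).dim := dim_eq_of_iso (H := H) h1 h2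
  have d1 : C.comp (C.graph (liftN X n p)) (C.graph ψ) = dg C P := by
    rw [graph_comp_graph, h1]
    rfl
  have d2 : C.comp (C.graph ψ) (C.graph (liftN X n p)) = dg C (pw X n) := by
    rw [graph_comp_graph, h2]
    rfl
  let τ' : Option G → C.A ((pw X n).prod (pw X n)) := fun o => o.elim (dg C (pw X n))
    (fun g => C.comp (C.comp (C.graph ψ) (τ g)) (C.graph (liftN X n p)))
  have hs : IsSum C P (T := Unit) (fun _ => pw X n) (fun _ => 0) (fun _ => C.graph (liftN X n p))
      (fun _ => C.graph ψ) (G := fun _ => Option G) (fun _ => τ') := by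
    refine ⟨fun _ => ?_, fun _ => ?_, fun _ => ?_, fun _ => ?_, fun t t' h => ?_, ?_⟩
    · rw [hdim, add_zero]
    · rw [Nat.cast_zero, sub_zero]
      exact graph_mem _ hdim
    · rw [Nat.cast_zero, add_zero]
      exact graph_mem _ hdim.symm
    · rw [d2]
      exact Submodule.subset_span ⟨none, rfl⟩
    · exact absurd (Subsingleton.elim t t') h
    · rw [Finset.univ_unique, Finset.sum_singleton, d1]
  refine hasEqCK_sum (G' := fun _ => Option G) hs (fun g _ => ⟨some g, ?_, ?_⟩)
    fun _ => ⟨pwCK C π n, isCK_pw hπ n, fun o m => ?_⟩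
  · change _ = C.comp _ (C.comp (C.comp (C.graph ψ) (τ g)) (C.graph (liftN X n p)))
    rw [← comp_assoc C, ← comp_assoc C, d1, dg_comp]
  · change _ = C.comp (C.comp (C.comp (C.graph ψ) (τ g)) (C.graph (liftN X n p))) _
    rw [comp_assoc C _ (C.graph (liftN X n p)), d1, comp_dg]
  · cases o with
    | none =>
      change C.comp (dg C (pw X n)) _ = C.comp _ (dg C (pw X n))
      rw [dg_comp, comp_dg]
    | some g =>
      obtain ⟨σ, u, t, ht, h3⟩ := hτ g
      refine eqCK_power hg n (σ := σ) (u := u) ?_ m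
      change C.comp (C.comp (C.graph ψ) (τ g)) (C.graph (liftN X n p)) = _
      have h4 : ψ ≫ t = tau X n σ ≫ ψ := by
        have h5 : (ψ ≫ t) ≫ liftN X n p = tau X n σ := by
          apply hom_ext_prj
          intro i
          rw [Category.assoc, hφ, Category.assoc, ht, hψ, tau_prj]
        rw [← h5, Category.assoc, h1, Category.comp_id]
      rw [h3, Lp_eq, ← comp_assoc C (C.graph ψ), graph_comp_graph, h4, ← graph_comp_graph,
        comp_assoc C (C.graph (tau X n σ)), comp_assoc C (C.graph (tau X n σ)),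
        conj_Lp _ ψ h1 h2 hψ]

end power

/-- **Equivariant Chow-Kunneth decompositions.** -/
theorem hasEqCK_of_built (hS : SurfaceProperties H) {G : Type} [Group G] {X : 𝒱.Obj}
    {ρ : G → C.A (X.prod X)} (h : Built H G X ρ) :
    ∃ π, IsCK H X π ∧ ∀ g i, C.comp (ρ g) (π i) = C.comp (π i) (ρ g) := by
  induction h with
  | surfaces hρ hX => exact hasEqCK_surfaces hS hρ hX
  | finite hρ hX => exact hasEqCK_finite hρ hX
  | hyperplane hX hρ => exact hasEqCK_hyperplane hX hρ
  | prod _ _ ih ih' => exact hasEqCK_prod ih ih'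
  | power _ hp hτ ih => exact hasEqCK_power hp hτ ih
  | sum _ hs hτ ih => exact hasEqCK_sum hs hτ ih

omit hH in
/-- The transpose of a graph. -/
lemma tp_graph (f : X ⟶ Y) : tp C (C.graph f) = C.cograph f := by
  rw [tp_eq_push, TheoryData.cograph, TheoryData.graph, ← C.push_comp]
  have e1 : Obj.lift (𝟙 X) f ≫ sw X Y = Obj.lift f (𝟙 X) := by
    apply prod_ext <;> simp [sw, comp_lift]
  rw [e1]

omit hH in
lemma cograph_comp_cograph (f : X ⟶ Y) (g : Y ⟶ Z) :
    C.comp (C.cograph g) (C.cograph f) = C.cograph (f ≫ g) := by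
  rw [← tp_graph, ← tp_graph, ← tp_comp C (ch_comm C), graph_comp_graph, tp_graph]

omit hH in
/-- The graph of an isomorphism is the transpose of the graph of the inverse. -/
lemma graph_eq_cograph (f : X ⟶ Y) (g : Y ⟶ X) (h1 : f ≫ g = 𝟙 X) (h2 : g ≫ f = 𝟙 Y) :
    C.graph f = C.cograph g := by
  have e : (1 : C.A X) = C.push g 1 := (hC.toHasIso.push_one g f h2 h1).symm
  rw [TheoryData.graph, TheoryData.cograph, e, ← C.push_comp]
  have e1 : g ≫ Obj.lift (𝟙 X) f = Obj.lift g (𝟙 Y) := by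
    rw [comp_lift, Category.comp_id, h2]
  rw [e1]

omit hC hH in
lemma ActsBy.inv_left {G : Type} [Group G] {a : G → (X ⟶ X)} (h : ActsBy a) (g : G) :
    a g⁻¹ ≫ a g = 𝟙 X := by rw [← h.mul, mul_inv_cancel, h.one]

omit hC hH in
lemma ActsBy.inv_right {G : Type} [Group G] {a : G → (X ⟶ X)} (h : ActsBy a) (g : G) :
    a g ≫ a g⁻¹ = 𝟙 X := by rw [← h.mul, inv_mul_cancel, h.one]

/-- The degree of a quotient map. -/
lemma IsQuotient.deg {N : Type} [Group N] [Fintype N] {a : N → (X ⟶ X)} {q : X ⟶ Z}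
    (hq : IsQuotient C a q) :
    C.comp (C.cograph q) (C.graph q) = (Fintype.card N : ℚ) • dg C Z := by
  have h1 := C.push_mem q (C.one_mem X)
  have h2 : (0 : ℤ) + 1 * ((Z.dim : ℤ) - X.dim) = 0 := by rw [hq.dim]; ring
  rw [h2] at h1
  obtain ⟨c, hc⟩ := hC.gr_zero Z _ h1
  have hcg : C.comp (C.cograph q) (C.graph q) = c • dg C Z := by
    rw [cograph_graph, hc]
    exact map_smul (C.push _) _ _
  have hf : C.comp (C.graph q) (C.cograph q) = ∑ n, C.graph (a n) := by
    rw [← tp_graph, hq.fibre]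
  have e1 : C.comp (∑ n, C.graph (a n)) (C.comp (C.graph q) (C.cograph q)) =
      (Fintype.card N : ℚ) • C.comp (C.graph q) (C.cograph q) := by
    rw [sum_comp, Finset.sum_congr rfl fun n _ => ?_, Finset.sum_const, Finset.card_univ,
      ← Nat.cast_smul_eq_nsmul ℚ]
    rw [← comp_assoc, graph_comp_graph, hq.inv]
  have e2 : C.comp (C.comp (C.graph q) (C.cograph q)) (C.comp (C.graph q) (C.cograph q)) =
      c • C.comp (C.graph q) (C.cograph q) := by
    rw [comp_assoc, ← comp_assoc C (C.cograph q), hcg, smul_comp, dg_comp, comp_smul]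
  rw [← hf, e2] at e1
  have e3 : C.act (C.comp (C.graph q) (C.cograph q)) 1 = (Fintype.card N : ℚ) • (1 : C.A X) := by
    rw [hf, act_sum, Finset.sum_congr rfl fun n _ => ?_, Finset.sum_const, Finset.card_univ,
      ← Nat.cast_smul_eq_nsmul ℚ]
    rw [C.act_graph]
    exact hC.toHasIso.push_one (a n) (a n⁻¹) (hq.acts.inv_right n) (hq.acts.inv_left n)
  have e4 := congrArg (fun z => C.act z 1) e1
  have hs : ∀ (c : ℚ) (Γ : C.A (X.prod X)), C.act (c • Γ) 1 = c • C.act Γ 1 := by
    intro c Γ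
    change C.push (snd X X) (c • Γ * C.pull (fst X X) 1) =
      c • C.push (snd X X) (Γ * C.pull (fst X X) 1)
    rw [smul_mul_assoc, map_smul]
  simp only [hs] at e4
  rw [e3, smul_smul, smul_smul, ← sub_eq_zero, ← sub_smul] at e4
  have hN : (Fintype.card N : ℚ) ≠ 0 := by exact_mod_cast Fintype.card_ne_zero
  rcases smul_eq_zero.1 e4 with h | h
  · rw [← sub_mul, mul_eq_zero] at h
    rcases h with h | h
    · rw [hcg, sub_eq_zero.1 h]
    · exact absurd h hN
  · exact absurd h (one_ne_zero' (H := H))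

/-- Quotients by normal subgroups. -/
theorem built_quotient {G : Type} [Group G] (N : Subgroup G) [Fintype N] {X Z : 𝒱.Obj}
    {a : G → (X ⟶ X)} {b : G → (Z ⟶ Z)} {q : X ⟶ Z} (ha : ActsBy a) (hb : ActsBy b)
    (hab : ∀ g, a g ≫ q = q ≫ b g) (hq : IsQuotient C (fun n : N => a n) q)
    (h : Built H G X (fun g => C.graph (a g))) : Built H G Z (fun g => C.graph (b g)) := by
  have hN : (Fintype.card N : ℚ) ≠ 0 := by exact_mod_cast Fintype.card_ne_zero
  have hcg : C.comp (C.cograph q) (C.graph q) = (Fintype.card N : ℚ) • dg C Z := hq.deg (H := H)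
  have hf : C.comp (C.graph q) (C.cograph q) = ∑ n : N, C.graph (a n) := by
    rw [← tp_graph, hq.fibre]
  refine Built.sum (T := Unit) (W := fun _ => X) (r := fun _ => 0)
    (a := fun _ => (Fintype.card N : ℚ)⁻¹ • C.cograph q) (b := fun _ => C.graph q)
    (G' := fun _ => G) (ρ := fun _ g => C.graph (a g)) (fun _ => h)
    ⟨fun _ => ?_, fun _ => ?_, fun _ => ?_, fun _ => ?_, fun t t' h => ?_, ?_⟩
    (fun g _ => ⟨g, ?_, ?_⟩)
  · have := hq.dim
    omega
  · have h1 : C.cograph q ∈ C.gr (Z.prod X) Z.dim := cograph_mem q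
    have h2 := Submodule.smul_mem _ (Fintype.card N : ℚ)⁻¹ h1
    rw [Nat.cast_zero, sub_zero]
    exact h2
  · have h1 : C.graph q ∈ C.gr (X.prod Z) X.dim := graph_mem q hq.dim.symm
    rw [Nat.cast_zero, add_zero]
    exact h1
  · rw [comp_smul, hf]
    refine Submodule.smul_mem _ _ (Submodule.sum_mem _ fun n _ => ?_)
    exact Submodule.subset_span ⟨(n : G), rfl⟩
  · exact absurd (Subsingleton.elim t t') h
  · rw [Finset.univ_unique, Finset.sum_singleton, smul_comp, hcg, smul_smul, inv_mul_cancel₀ hN,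
      one_smul]
  · have e1 : C.graph (b g) = C.cograph (b g⁻¹) :=
      graph_eq_cograph _ _ (hb.inv_right g) (hb.inv_left g)
    have e2 : C.graph (a g) = C.cograph (a g⁻¹) :=
      graph_eq_cograph _ _ (ha.inv_right g) (ha.inv_left g)
    rw [comp_smul, smul_comp, e1, e2, cograph_comp_cograph, cograph_comp_cograph, hab]
  · rw [graph_comp_graph, graph_comp_graph, hab]

/-- The quotient by the whole group. -/
theorem exists_ck_quotient (hS : SurfaceProperties H) {G : Type} [Group G] [Fintype G]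
    {X Z : 𝒱.Obj} {a : G → (X ⟶ X)} {q : X ⟶ Z} (hq : IsQuotient C a q)
    (h : Built H G X (fun g => C.graph (a g))) : ∃ π, IsCK H Z π := by
  have hG : (Fintype.card G : ℚ) ≠ 0 := by exact_mod_cast Fintype.card_ne_zero
  have hcg : C.comp (C.cograph q) (C.graph q) = (Fintype.card G : ℚ) • dg C Z := hq.deg (H := H)
  have hf : C.comp (C.graph q) (C.cograph q) = ∑ g, C.graph (a g) := by
    rw [← tp_graph, hq.fibre]
  have h1 : IsSum C Z (T := Unit) (fun _ => X) (fun _ => 0)
      (fun _ => (Fintype.card G : ℚ)⁻¹ • C.cograph q) (fun _ => C.graph q) (G := fun _ => G)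
      (fun _ g => C.graph (a g)) := by
    refine ⟨fun _ => ?_, fun _ => ?_, fun _ => ?_, fun _ => ?_, fun t t' h => ?_, ?_⟩
    · have := hq.dim
      omega
    · have h1 : C.cograph q ∈ C.gr (Z.prod X) Z.dim := cograph_mem q
      have h2 := Submodule.smul_mem _ (Fintype.card G : ℚ)⁻¹ h1
      rw [Nat.cast_zero, sub_zero]
      exact h2
    · have h1 : C.graph q ∈ C.gr (X.prod Z) X.dim := graph_mem q hq.dim.symm
      rw [Nat.cast_zero, add_zero]
      exact h1
    · rw [comp_smul, hf]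
      refine Submodule.smul_mem _ _ (Submodule.sum_mem _ fun g _ => ?_)
      exact Submodule.subset_span ⟨g, rfl⟩
    · exact absurd (Subsingleton.elim t t') h
    · rw [Finset.univ_unique, Finset.sum_singleton, smul_comp, hcg, smul_smul, inv_mul_cancel₀ hG,
        one_smul]
  have h2 : Built H Unit Z (fun _ => dg C Z) := Built.sum (fun _ => h) h1 fun _ _ => ⟨1, by
    change C.comp (dg C Z) _ = C.comp _ (C.graph (a 1))
    rw [hq.acts.one]
    exact (dg_comp C _).trans (comp_dg C _).symm, by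
    change C.comp _ (dg C Z) = C.comp (C.graph (a 1)) _
    rw [hq.acts.one]
    exact (comp_dg C _).trans (dg_comp C _).symm⟩
  obtain ⟨π, hπ, -⟩ := hasEqCK_of_built hS h2
  exact ⟨π, hπ⟩

end weil

end Pool.Agent.U981.EQ
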