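import Pool.Agent.X308.S.Defs

/-!
# Chow-Kunneth decompositions compatible with finite group actions: definitions
-/

set_option autoImplicit false

open CategoryTheory AlgebraicGeometry

universe u v w

namespace Pool.Agent.U981.EQ

open Pool.Agent.H914 Pool.Agent.H914.VarClass Pool.Agent.H914.VarClass.Obj Pool.Agent.W492.BB
  Pool.Agent.W550.Corr Pool.Agent.TH133 Pool.Agent.X308.S

variable {k : Type u} [Field k] {𝒱 : VarClass k}

/-- `P` is the product of `n` copies of `X`, with the projections `p i`. -/
def IsPower {X P : 𝒱.Obj} {n : ℕ} (p : Fin n → (P ⟶ X)) : Prop :=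
  ∀ (Z : 𝒱.Obj) (f : Fin n → (Z ⟶ X)), ∃! φ : Z ⟶ P, ∀ i, φ ≫ p i = f i

section chow

variable (C : TheoryData.{u, v, 0} 𝒱 ℚ)

/-- `ρ` is an action of the group `G` on the Chow motive of `X`: the `ρ g` are self-correspondences
of degree zero with `ρ 1 = Δ_X` and `ρ (g h) = ρ g ∘ ρ h`. For an action of `G` on `X` by
automorphisms the `ρ g` are the graphs of the `g`. -/
structure IsAction {G : Type} [Group G] {X : 𝒱.Obj} (ρ : G → C.A (X.prod X)) : Prop where
  deg : ∀ g, C.Deg X.dim (ρ g)
  one : ρ 1 = dg C X
  mul : ∀ g h, ρ (g * h) = C.comp (ρ h) (ρ g)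

/-- `h(Z)` is the direct sum of direct summands of the motives `h(W t)(-r t)`, for `t` in a finite
set, by the projections `a t : h(Z) → h(W t)(-r t)` and the inclusions `b t : h(W t)(-r t) → h(Z)`;
the summands of `h(W t)` are cut out by linear combinations of the correspondences `ρ t g`. For the
blow-up `Z` of `X` in a smooth subvariety `W` of codimension `c` the summands are `h(X)` and
`h(W)(-r)` for `0 < r < c`; for a projective bundle of rank `e` over `X` they are `h(X)(-r)` for
`0 ≤ r ≤ e`; for the quotient `Z` of `X` by a finite group there is one summand, the invariant part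
of `h(X)`. -/
structure IsSum (Z : 𝒱.Obj) {T : Type} [Fintype T] (W : T → 𝒱.Obj) (r : T → ℕ)
    (a : ∀ t, C.A (Z.prod (W t))) (b : ∀ t, C.A ((W t).prod Z)) {G : T → Type}
    (ρ : ∀ t, G t → C.A ((W t).prod (W t))) : Prop where
  le : ∀ t, (W t).dim + r t ≤ Z.dim
  deg_a : ∀ t, C.Deg ((Z.dim : ℤ) - r t) (a t)
  deg_b : ∀ t, C.Deg (((W t).dim : ℤ) + r t) (b t)
  mem : ∀ t, C.comp (b t) (a t) ∈ Submodule.span ℚ (Set.range (ρ t))
  orth : ∀ t t', t ≠ t' → C.comp (b t) (a t') = 0
  sum : ∑ t, C.comp (a t) (b t) = dg C Z

/-- `a` is an action of the group `G` on `X` by automorphisms. -/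
structure ActsBy {G : Type} [Group G] {X : 𝒱.Obj} (a : G → (X ⟶ X)) : Prop where
  one : a 1 = 𝟙 X
  mul : ∀ g h, a (g * h) = a h ≫ a g

/-- `q : X → Z` is the quotient by the action `a` of the finite group `N` on `X` by automorphisms:
`q ∘ a n = q`, `dim Z = dim X`, and the cycle of `X ×_Z X` in `X × X` (the composition of `q` and its
transpose) is the sum of the graphs of the `a n`. It follows that `q` has degree `#N`. -/
structure IsQuotient {N : Type} [Group N] [Fintype N] {X Z : 𝒱.Obj} (a : N → (X ⟶ X))
    (q : X ⟶ Z) : Prop where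
  acts : ActsBy a
  inv : ∀ n, a n ≫ q = q
  dim : Z.dim = X.dim
  fibre : C.comp (C.graph q) (tp C (C.graph q)) = ∑ n, C.graph (a n)

end chow

section weil

variable {C : TheoryData.{u, v, 0} 𝒱 ℚ} {K : Type w} [Field K] (H : WeilTheoryData.{u, v, w} C K)

/-- `X` is of finite type: the homologically trivial self-correspondences of degree zero of `X` are
nilpotent, and `X` has a Chow-Kunneth decomposition. Examples: the varieties with
finite-dimensional motive in the sense of Kimura and O'Sullivan which satisfy the standard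
conjecture of Kunneth type, such as curves, abelian varieties and varieties dominated by
products of curves. -/
structure IsFiniteType (X : 𝒱.Obj) : Prop where
  nilpotent : ∀ z : C.A (X.prod X), C.Deg X.dim z → H.cl z = 0 →
    ∃ m : ℕ, (fun w => C.comp w z)^[m] z = 0
  ck : ∃ π, IsCK H X π

/-- `X` is of hyperplane type, `h` is a divisor class on `X` with `deg h^(dim X) ≠ 0` (the
push-forward of `h^(dim X) × X` to `X` is not zero), and `H^m(X)` is spanned by a power of `h` or
zero if `m ≠ dim X`. Example: complete intersections in projective space. -/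
structure IsHyperplaneType (X : 𝒱.Obj) (h : C.A X) : Prop where
  deg : C.Deg 1 h
  top : C.down (snd X X) (C.up (fst X X) (h ^ X.dim)) ≠ 0
  coh : ∀ (m : ℤ) (x : H.A X), m ≠ X.dim → H.Deg m x → x ≠ 0 →
    ∃ (i : ℕ) (c : K), m = 2 * i ∧ x = c • H.cl h ^ i

/-- `Built H G X ρ`: the variety `X` with the self-correspondences `ρ g`, for `g` in the group `G`,
can be built in finitely many steps. This is the smallest class which

* contains all `(G, X, ρ)` if `ρ` is an action of the finite group `G`, and the diagonal of `X` is a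
  sum of correspondences which factor through surfaces (`h(X)` is a direct summand of a sum of
  twisted motives of surfaces);
* contains all `(G, X, ρ)` if `ρ` is an action of the finite group `G`, and `X` is of finite type;
* contains all `(G, X, ρ)` if `X` is of hyperplane type, and the powers of the class `h` are fixed
  by all `ρ g` and their transposes;
* is closed under products, with the diagonal action of `G` (the external products of `ρ g` and
  `σ g`);
* is closed under powers `P = X^(n+1)`, with the groups which permute the factors and act on them by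
  the given group: the `τ g` are compositions of a permutation `t` of the factors and the external
  product of correspondences `ρ (u i)`;
* is closed under sums of twisted summands (blow-ups, projective bundles, quotients, ...), with the
  correspondences which are induced by the given groups on the summands. -/
inductive Built : ∀ (G : Type) [Group G] (X : 𝒱.Obj), (G → C.A (X.prod X)) → Prop
  | surfaces {G : Type} [Group G] [Finite G] {X : 𝒱.Obj} {ρ : G → C.A (X.prod X)}
      (hρ : IsAction C ρ) (hX : dg C X ∈ throughSurfaces C X) : Built G X ρ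
  | finite {G : Type} [Group G] [Finite G] {X : 𝒱.Obj} {ρ : G → C.A (X.prod X)}
      (hρ : IsAction C ρ) (hX : IsFiniteType H X) : Built G X ρ
  | hyperplane {G : Type} [Group G] {X : 𝒱.Obj} {ρ : G → C.A (X.prod X)} {h : C.A X}
      (hX : IsHyperplaneType H X h)
      (hρ : ∀ (g : G) (i : ℕ), C.act (ρ g) (h ^ i) = h ^ i ∧ C.act (tp C (ρ g)) (h ^ i) = h ^ i) :
      Built G X ρ
  | prod {G : Type} [Group G] {X Y : 𝒱.Obj} {ρ : G → C.A (X.prod X)} {σ : G → C.A (Y.prod Y)}
      (hX : Built G X ρ) (hY : Built G Y σ) : Built G (X.prod Y) fun g =>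
        C.mul (C.up (prodMap (fst X Y) (fst X Y)) (ρ g)) (C.up (prodMap (snd X Y) (snd X Y)) (σ g))
  | power {G G' : Type} [Group G] [Group G'] {X P : 𝒱.Obj} {ρ : G' → C.A (X.prod X)} {n : ℕ}
      {p : Fin (n + 1) → (P ⟶ X)} {τ : G → C.A (P.prod P)} (hX : Built G' X ρ) (hp : IsPower p)
      (hτ : ∀ g, ∃ (σ : Equiv.Perm (Fin (n + 1))) (u : Fin (n + 1) → G') (t : P ⟶ P),
        (∀ i, t ≫ p i = p (σ i)) ∧ τ g = C.comp (C.graph t)
          (List.ofFn fun i => C.up (prodMap (p i) (p i)) (ρ (u i))).prod) : Built G P τ
  | sum {G : Type} [Group G] {Z : 𝒱.Obj} {τ : G → C.A (Z.prod Z)} {T : Type} [Fintype T]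
      {W : T → 𝒱.Obj} {r : T → ℕ} {a : ∀ t, C.A (Z.prod (W t))} {b : ∀ t, C.A ((W t).prod Z)}
      {G' : T → Type} [∀ t, Group (G' t)] {ρ : ∀ t, G' t → C.A ((W t).prod (W t))}
      (hW : ∀ t, Built (G' t) (W t) (ρ t)) (hs : IsSum C Z W r a b ρ)
      (hτ : ∀ g t, ∃ g' : G' t, C.comp (τ g) (a t) = C.comp (a t) (ρ t g') ∧
        C.comp (b t) (τ g) = C.comp (ρ t g') (b t)) : Built G Z τ

end weil

end Pool.Agent.U981.EQ
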