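import Pool.Agent.U981.EQ.Geo

/-!
# Equivariant Chow-Kunneth decompositions of one variety
-/

set_option autoImplicit false

open CategoryTheory AlgebraicGeometry

universe u v w

namespace Pool.Agent.U981.EQ

open Pool.Agent.H914 Pool.Agent.H914.VarClass Pool.Agent.H914.VarClass.Obj Pool.Agent.W492.BB
  Pool.Agent.W550.Corr Pool.Agent.TH133 Pool.Agent.X308.S Pool.Agent.Y107

set_option linter.unusedSectionVars false

variable {k : Type u} [Field k] {𝒱 : VarClass k}

section weil

variable {C : TheoryData.{u, v, 0} 𝒱 ℚ} [hC : IsChowProj C] {K : Type w} [Field K]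
  {H : WeilTheoryData.{u, v, w} C K} [hH : IsWeilProj H] {X Y Z W : 𝒱.Obj}
  {G : Type} [Group G]

include hC

/-- The action as a homomorphism to the ring of self-correspondences of degree zero. -/
noncomputable def hom {ρ : G → C.A (X.prod X)} (h : IsAction C ρ) : G →* cor0 C X where
  toFun g := ⟨ρ g, h.deg g⟩
  map_one' := Subtype.ext h.one
  map_mul' g g' := Subtype.ext (h.mul g g')

lemma hom_coe {ρ : G → C.A (X.prod X)} (h : IsAction C ρ) (g : G) :
    ((hom h g : cor0 C X) : Cor C X) = ρ g := rfl

variable (H) in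
/-- `X` has a Chow-Kunneth decomposition which commutes with the action. -/
def HasEqCK (ρ : G → C.A (X.prod X)) : Prop :=
  ∃ π : ℕ → C.A (X.prod X), IsCK H X π ∧ ∀ g i, C.comp (ρ g) (π i) = C.comp (π i) (ρ g)

include hH

/-- A Chow-Kunneth decomposition from complete orthogonal idempotents of the ring of
self-correspondences of degree zero. -/
lemma hasEqCK_of {ρ : G → C.A (X.prod X)} (h : IsAction C ρ)
    {q : Fin (2 * X.dim + 1) → cor0 C X} (hq : CompleteOrthogonalIdempotents q)
    (hg : ∀ g i, hom h g * q i = q i * hom h g)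
    (hact : ∀ (i : Fin (2 * X.dim + 1)) (m : ℤ) (x : H.A X), x ∈ H.gr X m →
      actH C X H (q i) x = if m = i then x else 0) : HasEqCK H ρ := by
  classical
  let P : ℕ → Cor C X := fun n => if hn : n < 2 * X.dim + 1 then (q ⟨n, hn⟩ : Cor C X) else 0
  have hP : ∀ i : Fin (2 * X.dim + 1), P i = q i := fun i => by
    simp only [P]
    rw [dif_pos i.2]
  have hP' : ∀ n, 2 * X.dim < n → P n = 0 := fun n hn => dif_neg (by omega)
  refine ⟨P, isCK_of (H := H) (P := P) ?_ hP' ?_ ?_ ?_, ?_⟩
  · intro n
    by_cases hn : n < 2 * X.dim + 1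
    · have := hP ⟨n, hn⟩
      rw [show n = ((⟨n, hn⟩ : Fin (2 * X.dim + 1)) : ℕ) from rfl, this]
      exact (q ⟨n, hn⟩).2
    · rw [hP' n (by omega)]
      exact (cor0 C X).zero_mem
  · intro i j
    by_cases hi : i < 2 * X.dim + 1
    · by_cases hj : j < 2 * X.dim + 1
      · have h1 := hP ⟨i, hi⟩
        have h2 := hP ⟨j, hj⟩
        change P i = _ at h1
        change P j = _ at h2
        rw [h1, h2]
        have h3 := congrArg (fun x : cor0 C X => (x : Cor C X)) (hq.mul_eq ⟨i, hi⟩ ⟨j, hj⟩)
        have h4 : ((q ⟨i, hi⟩ * q ⟨j, hj⟩ : cor0 C X) : Cor C X) =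
          (q ⟨i, hi⟩ : Cor C X) * (q ⟨j, hj⟩ : Cor C X) := rfl
        rw [← h4, hq.mul_eq]
        by_cases hij : i = j
        · subst hij
          rw [if_pos rfl, if_pos rfl]
        · rw [if_neg hij, if_neg (fun h => hij (Fin.ext_iff.1 h))]
          rfl
      · rw [hP' j (by omega), mul_zero]
        split_ifs with hij
        · omega
        · rfl
    · rw [hP' i (by omega), zero_mul]
      split_ifs <;> rfl
  · rw [Finset.sum_range]
    have h1 : ∑ i : Fin (2 * X.dim + 1), P i = ((∑ i, q i : cor0 C X) : Cor C X) := by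
      rw [AddSubmonoidClass.coe_finsetSum]
      exact Finset.sum_congr rfl fun i _ => hP i
    rw [h1, hq.complete]
    rfl
  · intro i m x hx
    by_cases hi : i < 2 * X.dim + 1
    · have h1 := hP ⟨i, hi⟩
      change P i = _ at h1
      rw [h1]
      exact hact ⟨i, hi⟩ m x hx
    · rw [hP' i (by omega), map_zero, LinearMap.zero_apply]
      split_ifs with hm
      · subst hm
        rw [gr_top H (by omega)] at hx
        exact ((Submodule.mem_bot _).1 hx).symm
      · rfl
  · intro g i
    by_cases hi : i < 2 * X.dim + 1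
    · have h1 := hP ⟨i, hi⟩
      change P i = _ at h1
      have h2 : ((hom h g : cor0 C X) : Cor C X) * (q ⟨i, hi⟩ : Cor C X) =
          (q ⟨i, hi⟩ : Cor C X) * ((hom h g : cor0 C X) : Cor C X) :=
        congrArg (fun x : cor0 C X => (x : Cor C X)) (hg g ⟨i, hi⟩)
      rw [← h1] at h2
      exact h2.symm
    · have h0 : P i = 0 := hP' i (by omega)
      have h1 : ((hom h g : cor0 C X) : Cor C X) * P i = P i * ((hom h g : cor0 C X) : Cor C X) := by
        rw [h0, mul_zero, zero_mul]
      exact h1.symm

/-- Varieties of surface type. -/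
theorem hasEqCK_surfaces [Finite G] (hS : SurfaceProperties H) {ρ : G → C.A (X.prod X)}
    (h : IsAction C ρ) (hX : dg C X ∈ throughSurfaces C X) : HasEqCK H ρ := by
  classical
  haveI := Fintype.ofFinite G
  obtain ⟨π, hπ, -, hw⟩ := exists_selfDual_CK hS hX
  have hT : NoRaising C π := noRaising_of_wt hS hw
  let N := 2 * X.dim
  let p : Fin (N + 1) → cor0 C X := fun i => ⟨(π (N - i) : C.A (X.prod X)), hπ.deg _⟩
  have hp : CompleteOrthogonalIdempotents p := by
    refine ⟨⟨fun i => ?_, fun i j hij => ?_⟩, ?_⟩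
    · exact Subtype.ext (hπ.idem _)
    · refine Subtype.ext ?_
      change C.comp (π (N - j)) (π (N - i)) = 0
      refine hπ.orth _ _ ?_
      intro h1
      have := i.2
      have := j.2
      exact hij (Fin.ext (by omega))
    · apply Subtype.ext
      rw [AddSubmonoidClass.coe_finsetSum]
      have h0 : ∑ i : Fin (N + 1), ((p i : cor0 C X) : Cor C X) =
          ∑ n ∈ Finset.range (N + 1), (π (N - n) : Cor C X) :=
        (Finset.sum_range (fun n : ℕ => (π (N - n) : Cor C X))).symm
      refine h0.trans ?_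
      have h1 := Finset.sum_range_reflect (fun n : ℕ => (π n : Cor C X)) (N + 1)
      have h2 : ∑ n ∈ Finset.range (N + 1), (π (N - n) : Cor C X) =
          ∑ j ∈ Finset.range (N + 1), (π (N + 1 - 1 - j) : Cor C X) := rfl
      rw [h2, h1]
      exact hπ.sum
  have ht : ∀ (x : cor0 C X) (i j : Fin (N + 1)), i < j → p i * x * p j = 0 := by
    intro x i j hij
    refine Subtype.ext ?_
    have h1 : (N - (j : ℕ)) < N - (i : ℕ) := by
      have h2 : (i : ℕ) < j := hij
      have := j.2
      omega
    exact NoRaising.mul_eq (H := H) hT x.2 h1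
  obtain ⟨q, hq, hqp, hg⟩ := exists_equivariant hp ht (hom h)
  have hq' : CompleteOrthogonalIdempotents (q ∘ Fin.revPerm) :=
    (CompleteOrthogonalIdempotents.equiv Fin.revPerm).2 hq
  refine hasEqCK_of h (q := q ∘ Fin.revPerm) hq' (fun g i => hg g _) ?_
  intro i m x hx
  have hrev : (N - ((Fin.revPerm i : Fin (N + 1)) : ℕ)) = i := by
    have h1 : ((Fin.revPerm i : Fin (N + 1)) : ℕ) = N + 1 - (i + 1) := Fin.val_rev i
    rw [h1]
    have h2 : (i : ℕ) < N + 1 := i.2
    omega
  have hpi : actH C X H (p (Fin.revPerm i) : Cor C X) x = if m = i then x else 0 := by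
    have h1 : ((p (Fin.revPerm i) : cor0 C X) : Cor C X) = π i := by
      change π (N - ((Fin.revPerm i : Fin (N + 1)) : ℕ)) = π i
      rw [hrev]
    rw [h1]
    exact hπ.actH_eq i m hx
  rw [← hpi, Function.comp_apply, ← sub_eq_zero, ← LinearMap.sub_apply, ← map_sub]
  by_cases hm : 0 ≤ m ∧ m ≤ N
  · obtain ⟨hm0, hm1⟩ := hm
    obtain ⟨n, rfl⟩ := Int.eq_ofNat_of_zero_le hm0
    have hn : n < N + 1 := by omega
    let j : Fin (N + 1) := ⟨N - n, by omega⟩
    have hpj : ∀ y : H.A X, y ∈ H.gr X n → actH C X H (p j : Cor C X) y = y := by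
      intro y hy
      have h1 : ((p j : cor0 C X) : Cor C X) = π n := by
        change π (N - (N - n)) = π n
        congr 1
        omega
      rw [h1]
      have := hπ.actH_eq n n hy
      rw [if_pos rfl] at this
      exact this
    have h2 := congrArg (fun x : cor0 C X => (x : Cor C X)) (hqp (Fin.revPerm i) j)
    change (p j : Cor C X) * ((q (Fin.revPerm i) : Cor C X) - (p (Fin.revPerm i) : Cor C X)) *
      (p j : Cor C X) = 0 at h2
    have h3 : actH C X H ((q (Fin.revPerm i) : Cor C X) - (p (Fin.revPerm i) : Cor C X)) x ∈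
        H.gr X n := actH_mem0 (Subalgebra.sub_mem _ (q (Fin.revPerm i)).2 (p (Fin.revPerm i)).2) hx
    rw [← hpj _ h3]
    have h4 : actH C X H (p j : Cor C X)
        (actH C X H ((q (Fin.revPerm i) : Cor C X) - (p (Fin.revPerm i) : Cor C X)) x) =
        actH C X H ((p j : Cor C X) * ((q (Fin.revPerm i) : Cor C X) -
          (p (Fin.revPerm i) : Cor C X)) * (p j : Cor C X)) x := by
      rw [map_mul, map_mul, Module.End.mul_apply, Module.End.mul_apply, hpj x hx]
    rw [h4, h2, map_zero, LinearMap.zero_apply]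
  · have hx0 : x = 0 := by
      by_contra hne
      have h1 := nonneg_of_mem H hx hne
      have h2 : 2 * (X.dim : ℤ) < m := by
        have h3 : ¬ m ≤ N := fun h4 => hm ⟨h1, h4⟩
        have h4 : (N : ℤ) = 2 * X.dim := by simp only [N]; push_cast; ring
        omega
      rw [gr_top H h2] at hx
      exact hne ((Submodule.mem_bot _).1 hx)
    rw [hx0, map_zero]

/-- Varieties of finite type. -/
theorem hasEqCK_finite [Finite G] {ρ : G → C.A (X.prod X)} (h : IsAction C ρ)
    (hX : IsFiniteType H X) : HasEqCK H ρ := by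
  classical
  haveI := Fintype.ofFinite G
  obtain ⟨π, hπ⟩ := hX.ck
  have hk : ∀ n : ℕ, ∃ a : C.A (X.prod X), C.Deg X.dim a ∧
      ∀ (m : ℤ) (x : H.A X), H.Deg m x → H.act (H.cl a) x = if m = n then x else 0 := by
    intro n
    refine ⟨π n, hπ.deg n, fun m x hx => ?_⟩
    split_ifs with hm
    · subst hm
      exact hπ.act_self n x hx
    · exact hπ.act_ne n m x hm hx
  choose a ha ha' using hk
  let f : cor0 C X →+* Module.End K (H.A X) := (actH C X H).comp (cor0 C X).val.toRingHom
  have hf : ∀ x : cor0 C X, f x = actH C X H (x : Cor C X) := fun _ => rfl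
  let e : Fin (2 * X.dim + 1) → Module.End K (H.A X) := fun i => f ⟨a i, ha i⟩
  have he : ∀ (i : Fin (2 * X.dim + 1)) (m : ℤ) (x : H.A X), x ∈ H.gr X m →
      e i x = if m = i then x else 0 := fun i m x hx => ha' i m x hx
  have hcomp : ∀ i j, e i * e j = if i = j then e i else 0 := by
    intro i j
    apply ext_gr H
    intro m x hx
    rw [Module.End.mul_apply, he j m x hx]
    by_cases hij : i = j
    · subst hij
      rw [if_pos rfl]
      by_cases hm : m = i
      · rw [if_pos hm]
      · rw [if_neg hm, map_zero, he i m x hx, if_neg hm]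
    · rw [if_neg hij, LinearMap.zero_apply]
      by_cases hm : m = j
      · rw [if_pos hm, he i m x hx, if_neg]
        intro h1
        exact hij (Fin.ext (by omega))
      · rw [if_neg hm, map_zero]
  have hee : CompleteOrthogonalIdempotents e := by
    refine ⟨⟨fun i => ?_, fun i j hij => ?_⟩, ?_⟩
    · have := hcomp i i
      rw [if_pos rfl] at this
      exact this
    · have := hcomp i j
      rw [if_neg hij] at this
      exact this
    · apply ext_gr H
      intro m x hx
      rw [LinearMap.sum_apply, Module.End.one_apply]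
      by_cases hx0 : x = 0
      · rw [hx0]
        simp
      · have h1 := nonneg_of_mem H hx hx0
        have h2 : m ≤ 2 * X.dim := by
          by_contra h3
          rw [gr_top H (by omega)] at hx
          exact hx0 ((Submodule.mem_bot _).1 hx)
        obtain ⟨n, rfl⟩ := Int.eq_ofNat_of_zero_le h1
        rw [Finset.sum_eq_single (⟨n, by omega⟩ : Fin (2 * X.dim + 1))]
        · rw [he _ _ x hx, if_pos rfl]
        · intro j _ hj
          rw [he _ _ x hx, if_neg]
          intro h3
          exact hj (Fin.ext (by simpa using h3.symm))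
        · intro h3
          exact absurd (Finset.mem_univ _) h3
  have hnil : ∀ x, f x = 0 → IsNilpotent x := by
    intro x hx
    have h1 : H.cl (X := X.prod X) (x : Cor C X) = 0 := by
      apply hom_zero_of_act
      intro y
      exact LinearMap.congr_fun hx y
    obtain ⟨m, hm⟩ := hX.nilpotent (x : Cor C X) x.2 h1
    have h2 : ∀ n : ℕ, ((fun w : Cor C X => (x : Cor C X) * w)^[n] (x : Cor C X)) =
        (x : Cor C X) ^ (n + 1) := by
      intro n
      induction n with
      | zero => rw [zero_add, pow_one]; rfl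
      | succ n ih => rw [Function.iterate_succ_apply', ih, pow_succ' _ (n + 1)]
    refine ⟨m + 1, Subtype.ext ?_⟩
    rw [SubmonoidClass.coe_pow, ← h2]
    exact hm
  obtain ⟨q, hq, hqe, hg⟩ := lift_equivariant f hnil (hom h) hee (fun i => ⟨_, rfl⟩) (by
    intro g i
    apply ext_gr H
    intro m x hx
    rw [Module.End.mul_apply, Module.End.mul_apply, he i m x hx]
    have h1 : f (hom h g) x ∈ H.gr X m := actH_mem0 (hom h g).2 hx
    rw [he i m _ h1]
    split_ifs
    · rfl
    · rw [map_zero])
  refine hasEqCK_of h hq hg ?_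
  intro i m x hx
  rw [← hf, hqe i]
  exact he i m x hx

end weil

end Pool.Agent.U981.EQ
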