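import Pool.Agent.U981.EQ.Equi
import Pool.Agent.TH133.Hyper

/-!
# Varieties of hyperplane type
-/

set_option autoImplicit false

open CategoryTheory AlgebraicGeometry

universe u v w

namespace Pool.Agent.U981.EQ

open Pool.Agent.H914 Pool.Agent.H914.VarClass Pool.Agent.H914.VarClass.Obj Pool.Agent.W492.BB
  Pool.Agent.W550.Corr Pool.Agent.TH133 Pool.Agent.X308.S Pool.Agent.Y107

set_option linter.unusedSectionVars false

variable {k : Type u} [Field k] {𝒱 : VarClass k}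

section chow

variable {C : TheoryData.{u, v, 0} 𝒱 ℚ} [hC : IsChowProj C] {X Y Z W : 𝒱.Obj}

include hC

/-- Classes outside the top degree have degree zero. -/
lemma hasDegree_of_ne {i : ℤ} {x : C.A X} (hx : x ∈ C.gr X i) (hi : i ≠ X.dim) :
    HasDegree C x 0 := by
  rcases lt_or_gt_of_ne hi with h | h
  · intro Y
    have h1 := C.push_mem (snd X Y) (C.pull_mem (fst X Y) hx)
    have h2 := C.push_mem (fst Y X) (C.pull_mem (snd Y X) hx)
    rw [C.gr_neg Y _ (by rw [dim_prod]; push_cast; omega)] at h1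
    rw [C.gr_neg Y _ (by rw [dim_prod]; push_cast; omega)] at h2
    rw [zero_smul]
    exact ⟨(Submodule.mem_bot _).1 h1, (Submodule.mem_bot _).1 h2⟩
  · have h1 : x = 0 := hC.gr_top X i x hx h
    rw [h1]
    exact hasDegree_zero

lemma pow_mem {h : C.A X} (hh : C.Deg 1 h) (n : ℕ) : h ^ n ∈ C.gr X n := by
  induction n with
  | zero =>
    rw [pow_zero]
    exact C.one_mem X
  | succ n ih =>
    rw [pow_succ]
    have := C.mul_mem ih hh
    exact_mod_cast this

/-- Composition of an external product with a correspondence. -/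
lemma ext_comp (v : C.A X) (α : C.A Y) (Γ : C.A (Y.prod Z)) :
    C.comp (C.ext v α) Γ = C.ext v (C.act Γ α) := by
  rw [comp_eq_extR C, C.extR_ext Γ (fun c => ch_comm C _ _)]

lemma comp_ext (Γ : C.A (X.prod Y)) (v : C.A Y) (α : C.A Z) :
    C.comp Γ (C.ext v α) = C.ext (C.act (tp C Γ) v) α := by
  rw [← tp_tp C (C.comp Γ (C.ext v α)), tp_comp C (ch_comm C), tp_ext, ext_comp, tp_ext]

/-- The projectors. -/
noncomputable def hE (h : C.A X) (q : ℚ) (i : ℕ) : C.A (X.prod X) :=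
  C.ext (q⁻¹ • h ^ (X.dim - i)) (h ^ i)

lemma hasDegree_smul {x : C.A X} {q : ℚ} (hx : HasDegree C x q) (c : ℚ) :
    HasDegree C (c • x) (c * q) := by
  intro Y
  rw [map_smul, map_smul, map_smul, map_smul, (hx Y).1, (hx Y).2, smul_smul]
  exact ⟨rfl, rfl⟩

lemma hE_mem {h : C.A X} (hh : C.Deg 1 h) (q : ℚ) {i : ℕ} (hi : i ≤ X.dim) :
    hE h q i ∈ C.gr (X.prod X) X.dim := by
  have h1 := ext_mem' (Submodule.smul_mem _ q⁻¹ (pow_mem hh (X.dim - i))) (pow_mem hh i)
  have e : ((X.dim - i : ℕ) : ℤ) + (i : ℤ) = X.dim := by rw [Nat.cast_sub hi]; ring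
  rw [e] at h1
  exact h1

lemma hE_comp {h : C.A X} (hh : C.Deg 1 h) {q : ℚ} (hq : q ≠ 0) (hd : HasDegree C (h ^ X.dim) q)
    {i j : ℕ} (hi : i ≤ X.dim) (hj : j ≤ X.dim) :
    C.comp (hE h q i) (hE h q j) = if i = j then hE h q i else 0 := by
  unfold hE
  split_ifs with hij
  · subst hij
    have h1 : HasDegree C (h ^ i * q⁻¹ • h ^ (X.dim - i)) 1 := by
      rw [mul_smul_comm, ← pow_add, Nat.add_sub_cancel' hi, ← inv_mul_cancel₀ hq]
      exact hasDegree_smul hd q⁻¹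
    rw [comp_ext_ext h1, one_smul]
  · have h1 : HasDegree C (h ^ i * q⁻¹ • h ^ (X.dim - j)) 0 := by
      rw [mul_smul_comm, ← pow_add]
      exact hasDegree_of_ne (Submodule.smul_mem _ _ (pow_mem hh _)) (by
        intro h2
        apply hij
        have h3 : i + (X.dim - j) = X.dim := by exact_mod_cast h2
        omega)
    rw [comp_ext_ext h1, zero_smul]

lemma hE_fix {h : C.A X} {q : ℚ} {Γ : C.A (X.prod X)}
    (hΓ : ∀ i : ℕ, C.act Γ (h ^ i) = h ^ i ∧ C.act (tp C Γ) (h ^ i) = h ^ i) (i : ℕ) :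
    C.comp Γ (hE h q i) = C.comp (hE h q i) Γ := by
  unfold hE
  rw [ext_comp, comp_ext, (hΓ _).1, act_map_smul, (hΓ _).2]

/-- The indices of the powers of `h` outside the middle degree. -/
def hS (X : 𝒱.Obj) : Finset ℕ := (Finset.range (X.dim + 1)).filter fun i => 2 * i ≠ X.dim

omit hC in
lemma mem_hS {i : ℕ} : i ∈ hS X ↔ i ≤ X.dim ∧ 2 * i ≠ X.dim := by
  unfold hS
  rw [Finset.mem_filter, Finset.mem_range]
  omega

open Classical in
/-- The Chow-Kunneth decomposition. -/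
noncomputable def hP (h : C.A X) (q : ℚ) (n : ℕ) : C.A (X.prod X) :=
  if n = X.dim then dg C X - ∑ i ∈ hS X, hE h q i
  else if Even n ∧ n ≤ 2 * X.dim then hE h q (n / 2) else 0

lemma hP_dim (h : C.A X) (q : ℚ) : hP h q X.dim = dg C X - ∑ i ∈ hS X, hE h q i := if_pos rfl

lemma hP_even (h : C.A X) (q : ℚ) {i : ℕ} (hi : i ∈ hS X) : hP h q (2 * i) = hE h q i := by
  rw [mem_hS] at hi
  unfold hP
  rw [if_neg hi.2, if_pos ⟨even_two_mul i, by omega⟩]
  congr 1
  omega

lemma hP_cases (h : C.A X) (q : ℚ) (n : ℕ) :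
    n = X.dim ∨ (∃ i ∈ hS X, n = 2 * i) ∨
      (n ≠ X.dim ∧ (¬ Even n ∨ 2 * X.dim < n) ∧ hP h q n = 0) := by
  by_cases h1 : n = X.dim
  · exact Or.inl h1
  · by_cases h2 : Even n ∧ n ≤ 2 * X.dim
    · obtain ⟨i, hi⟩ := h2.1
      refine Or.inr (Or.inl ⟨i, mem_hS.2 ⟨by omega, by omega⟩, by omega⟩)
    · refine Or.inr (Or.inr ⟨h1, ?_, ?_⟩)
      · by_cases h3 : Even n
        · right
          by_contra h4
          exact h2 ⟨h3, by omega⟩
        · exact Or.inl h3
      · unfold hP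
        rw [if_neg h1, if_neg h2]

lemma sum_comp_hE {h : C.A X} (hh : C.Deg 1 h) {q : ℚ} (hq : q ≠ 0)
    (hd : HasDegree C (h ^ X.dim) q) {i : ℕ} (hi : i ∈ hS X) :
    C.comp (∑ j ∈ hS X, hE h q j) (hE h q i) = hE h q i := by
  rw [sum_comp, Finset.sum_eq_single i]
  · rw [hE_comp hh hq hd (mem_hS.1 hi).1 (mem_hS.1 hi).1, if_pos rfl]
  · intro j hj hne
    rw [hE_comp hh hq hd (mem_hS.1 hj).1 (mem_hS.1 hi).1, if_neg hne]
  · intro h1
    exact absurd hi h1

lemma hE_comp_sum {h : C.A X} (hh : C.Deg 1 h) {q : ℚ} (hq : q ≠ 0)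
    (hd : HasDegree C (h ^ X.dim) q) {i : ℕ} (hi : i ∈ hS X) :
    C.comp (hE h q i) (∑ j ∈ hS X, hE h q j) = hE h q i := by
  rw [comp_sum, Finset.sum_eq_single i]
  · rw [hE_comp hh hq hd (mem_hS.1 hi).1 (mem_hS.1 hi).1, if_pos rfl]
  · intro j hj hne
    rw [hE_comp hh hq hd (mem_hS.1 hi).1 (mem_hS.1 hj).1, if_neg hne.symm]
  · intro h1
    exact absurd hi h1

lemma hP_comp {h : C.A X} (hh : C.Deg 1 h) {q : ℚ} (hq : q ≠ 0)
    (hd : HasDegree C (h ^ X.dim) q) (m n : ℕ) :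
    C.comp (hP h q m) (hP h q n) = if m = n then hP h q m else 0 := by
  have hQQ : C.comp (∑ j ∈ hS X, hE h q j) (∑ j ∈ hS X, hE h q j) = ∑ j ∈ hS X, hE h q j := by
    rw [comp_sum]
    exact Finset.sum_congr rfl fun i hi => sum_comp_hE hh hq hd hi
  rcases hP_cases h q m with rfl | ⟨i, hi, rfl⟩ | ⟨h1, h2, h3⟩
  · rcases hP_cases h q n with rfl | ⟨j, hj, rfl⟩ | ⟨h1', h2', h3'⟩
    · rw [if_pos rfl, hP_dim, sub_comp, dg_comp, comp_sub, comp_dg, hQQ, sub_self, sub_zero]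
    · rw [if_neg (Ne.symm (mem_hS.1 hj).2), hP_dim, hP_even h q hj, sub_comp, dg_comp,
        sum_comp_hE hh hq hd hj, sub_self]
    · rw [if_neg (Ne.symm h1'), h3', comp_zero]
  · rcases hP_cases h q n with rfl | ⟨j, hj, rfl⟩ | ⟨h1', h2', h3'⟩
    · rw [if_neg (mem_hS.1 hi).2, hP_dim, hP_even h q hi, comp_sub, comp_dg,
        hE_comp_sum hh hq hd hi, sub_self]
    · rw [hP_even h q hi, hP_even h q hj, hE_comp hh hq hd (mem_hS.1 hi).1 (mem_hS.1 hj).1]
      by_cases hij : i = j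
      · rw [if_pos hij, if_pos (by omega)]
      · rw [if_neg hij, if_neg (by omega)]
    · rw [h3', comp_zero]
      split_ifs with h4
      · rw [h4, h3']
      · rfl
  · rw [h3, zero_comp]
    split_ifs <;> rfl

lemma hP_sum (h : C.A X) (q : ℚ) : ∑ n ∈ Finset.range (2 * X.dim + 1), hP h q n = dg C X := by
  classical
  have h1 : ∑ n ∈ (Finset.range (2 * X.dim + 1)).erase X.dim, hP h q n =
      ∑ i ∈ hS X, hE h q i := by
    have h2 : ∑ i ∈ hS X, hE h q i = ∑ n ∈ (hS X).image (fun i => 2 * i), hP h q n := by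
      rw [Finset.sum_image (fun a _ b _ hab => by simpa using hab)]
      exact Finset.sum_congr rfl fun i hi => (hP_even h q hi).symm
    rw [h2]
    symm
    apply Finset.sum_subset
    · intro n hn
      rw [Finset.mem_image] at hn
      obtain ⟨i, hi, rfl⟩ := hn
      rw [mem_hS] at hi
      rw [Finset.mem_erase, Finset.mem_range]
      omega
    · intro n hn hn'
      rcases hP_cases h q n with h3 | ⟨i, hi, h3⟩ | h3
      · exact absurd h3 (Finset.mem_erase.1 hn).1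
      · exact absurd (Finset.mem_image.2 ⟨i, hi, h3.symm⟩) hn'
      · exact h3.2.2
  rw [← Finset.add_sum_erase _ _ (show X.dim ∈ Finset.range (2 * X.dim + 1) by
    rw [Finset.mem_range]; omega), h1, hP_dim, sub_add_cancel]

end chow

section weil

variable {C : TheoryData.{u, v, 0} 𝒱 ℚ} [hC : IsChowProj C] {K : Type w} [Field K]
  {H : WeilTheoryData.{u, v, w} C K} [hH : IsWeilProj H] {X Y Z W : 𝒱.Obj}

include hC hH

lemma act_hE_ne {h : C.A X} (hh : C.Deg 1 h) (q : ℚ) {i : ℕ} (hi : i ≤ X.dim) {m : ℤ}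
    (hm : m ≠ 2 * i) {x : H.A X} (hx : x ∈ H.gr X m) : H.act (H.cl (hE h q i)) x = 0 := by
  have h1 := Submodule.smul_mem _ q⁻¹ (pow_mem hh (X.dim - i))
  rw [Nat.cast_sub hi] at h1
  exact act_ext_ne (pow_mem hh i) h1 hm hx

lemma act_hE_pow {h : C.A X} {q : ℚ} (hq : q ≠ 0) (hd : HasDegree C (h ^ X.dim) q) {i : ℕ}
    (hi : i ≤ X.dim) (c : K) : H.act (H.cl (hE h q i)) (c • H.cl h ^ i) = c • H.cl h ^ i := by
  have h1 : HasDegree C ((q⁻¹ • h ^ (X.dim - i)) * h ^ i) 1 := by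
    rw [smul_mul_assoc, ← pow_add, Nat.sub_add_cancel hi, ← inv_mul_cancel₀ hq]
    exact hasDegree_smul hd q⁻¹
  have h2 : C.act (hE h q i) (h ^ i) = h ^ i := by
    unfold hE
    rw [act_ext' h1, one_smul]
  rw [act_map_smul, ← map_pow, ← cl_act H, h2]

/-- The action of the projectors on the cohomology. -/
lemma act_hP {h : C.A X} (hX : IsHyperplaneType H X h) {q : ℚ} (hq : q ≠ 0)
    (hd : HasDegree C (h ^ X.dim) q) (n : ℕ) (m : ℤ) {x : H.A X} (hx : x ∈ H.gr X m) :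
    H.act (H.cl (hP h q n)) x = if m = n then x else 0 := by
  by_cases hx0 : x = 0
  · subst hx0
    rw [H.act_map_zero]
    split_ifs <;> rfl
  have hm0 := nonneg_of_mem H hx hx0
  have hm1 : m ≤ 2 * X.dim := by
    by_contra h1
    rw [gr_top H (by omega)] at hx
    exact hx0 ((Submodule.mem_bot _).1 hx)
  have hself : ∀ i ∈ hS X, m = 2 * i → H.act (H.cl (hE h q i)) x = x := by
    intro i hi hm
    rw [mem_hS] at hi
    obtain ⟨j, c, h1, h2⟩ := hX.coh m x (by omega) hx hx0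
    have h3 : j = i := by omega
    subst h3
    rw [h2]
    exact act_hE_pow hq hd hi.1 c
  have hne : ∀ i ∈ hS X, m ≠ 2 * i → H.act (H.cl (hE h q i)) x = 0 := fun i hi hm =>
    act_hE_ne hX.deg q (mem_hS.1 hi).1 hm hx
  rcases hP_cases h q n with rfl | ⟨i, hi, rfl⟩ | ⟨h1, h2, h3⟩
  · have h4 : H.act (H.cl (∑ i ∈ hS X, hE h q i)) x = if m = X.dim then 0 else x := by
      rw [map_sum, act_sum]
      split_ifs with hm
      · refine Finset.sum_eq_zero fun i hi => hne i hi ?_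
        have := (mem_hS.1 hi).2
        omega
      · obtain ⟨j, c, h1, h2⟩ := hX.coh m x hm hx hx0
        have hj : j ∈ hS X := mem_hS.2 ⟨by omega, by omega⟩
        rw [Finset.sum_eq_single j]
        · exact hself j hj h1
        · intro i hi hij
          exact hne i hi (by omega)
        · intro h5
          exact absurd hj h5
    rw [hP_dim, map_sub, TheoryData.act_sub, actH_dg, h4]
    split_ifs
    · exact sub_zero x
    · exact sub_self x
  · rw [hP_even h q hi]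
    by_cases hm : m = 2 * i
    · rw [hself i hi hm, if_pos (by push_cast; omega)]
    · rw [hne i hi hm, if_neg (by push_cast; omega)]
  · rw [h3, actH_zero]
    split_ifs with hm
    · exfalso
      obtain ⟨j, c, h4, h5⟩ := hX.coh m x (by omega) hx hx0
      rcases h2 with h2 | h2
      · exact h2 ⟨j, by omega⟩
      · omega
    · rfl

/-- Varieties of hyperplane type. -/
theorem hasEqCK_hyperplane {G : Type} {ρ : G → C.A (X.prod X)} {h : C.A X}
    (hX : IsHyperplaneType H X h)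
    (hρ : ∀ (g : G) (i : ℕ), C.act (ρ g) (h ^ i) = h ^ i ∧ C.act (tp C (ρ g)) (h ^ i) = h ^ i) :
    ∃ π, IsCK H X π ∧ ∀ g i, C.comp (ρ g) (π i) = C.comp (π i) (ρ g) := by
  obtain ⟨q, hd⟩ := exists_hasDegree (C := C) (pow_mem hX.deg X.dim)
  have hq : q ≠ 0 := by
    intro h0
    apply hX.top
    change C.push (snd X X) (C.pull (fst X X) (h ^ X.dim)) = 0
    rw [(hd X).1, h0, zero_smul]
  have hfix : ∀ g, C.comp (ρ g) (∑ i ∈ hS X, hE h q i) = C.comp (∑ i ∈ hS X, hE h q i) (ρ g) := by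
    intro g
    rw [comp_sum, sum_comp]
    exact Finset.sum_congr rfl fun i _ => hE_fix (hρ g) i
  refine ⟨hP h q, ⟨?_, ?_, ?_, ?_, ?_, ?_, ?_⟩, ?_⟩
  · intro n
    change hP h q n ∈ C.gr (X.prod X) X.dim
    rcases hP_cases h q n with rfl | ⟨i, hi, rfl⟩ | ⟨h1, h2, h3⟩
    · rw [hP_dim]
      exact Submodule.sub_mem _ (dg_mem C X)
        (Submodule.sum_mem _ fun i hi => hE_mem hX.deg q (mem_hS.1 hi).1)
    · rw [hP_even h q hi]
      exact hE_mem hX.deg q (mem_hS.1 hi).1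
    · rw [h3]
      exact Submodule.zero_mem _
  · intro n hn
    rcases hP_cases h q n with rfl | ⟨i, hi, rfl⟩ | ⟨h1, h2, h3⟩
    · omega
    · have := (mem_hS.1 hi).1
      omega
    · exact h3
  · intro n
    rw [hP_comp hX.deg hq hd, if_pos rfl]
  · intro m n hmn
    rw [hP_comp hX.deg hq hd, if_neg hmn]
  · exact hP_sum h q
  · intro n x hx
    rw [act_hP hX hq hd n n hx, if_pos rfl]
  · intro n m x hm hx
    rw [act_hP hX hq hd n m hx, if_neg hm]
  · intro g n
    rcases hP_cases h q n with rfl | ⟨i, hi, rfl⟩ | ⟨h1, h2, h3⟩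
    · rw [hP_dim, comp_sub, sub_comp, hfix, comp_dg, dg_comp]
    · rw [hP_even h q hi]
      exact hE_fix (hρ g) i
    · rw [h3, comp_zero, zero_comp]

end weil

end Pool.Agent.U981.EQ
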