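import Pool.Agent.Y133.Half.PwDefs
import Pool.Agent.TH133.Tens

/-!
# Powers of a variety: projections, permutations, external products of correspondences

`pw X n` is the product of `n + 1` copies of `X`. The projections `prj X n i` and the permutations
`tau X n σ` of the factors are as in `Pool.Agent.Y133.Half.Growth` of the starting library.
-/

set_option autoImplicit false

open CategoryTheory AlgebraicGeometry

universe u v w

namespace Pool.Agent.U981.EQ

open Pool.Agent.H914 Pool.Agent.H914.VarClass Pool.Agent.H914.VarClass.Obj Pool.Agent.W492.BB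
  Pool.Agent.W550.Corr Pool.Agent.TH133 Pool.Agent.Y133.Half

variable {k : Type u} [Field k] {𝒱 : VarClass k} {X Z : 𝒱.Obj}

/-- The projection to the first factors. -/
noncomputable def pfst (X : 𝒱.Obj) (n : ℕ) : pw X (n + 1) ⟶ pw X n := fst (pw X n) X

/-- The projection to the last factor. -/
noncomputable def psnd (X : 𝒱.Obj) (n : ℕ) : pw X (n + 1) ⟶ X := snd (pw X n) X

/-- The morphism with given components. -/
noncomputable def plift {n : ℕ} (f : Z ⟶ pw X n) (g : Z ⟶ X) : Z ⟶ pw X (n + 1) := Obj.lift f g

/-- The projections of a power. -/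
noncomputable def prj (X : 𝒱.Obj) : ∀ n, Fin (n + 1) → (pw X n ⟶ X)
  | 0, _ => 𝟙 X
  | n + 1, i => Fin.lastCases (motive := fun _ => pw X (n + 1) ⟶ X) (psnd X n)
      (fun j => pfst X n ≫ prj X n j) i

/-- The morphism to a power given by its components. -/
noncomputable def liftN (X : 𝒱.Obj) : ∀ n, (Fin (n + 1) → (Z ⟶ X)) → (Z ⟶ pw X n)
  | 0, f => f 0
  | n + 1, f => plift (liftN X n fun j => f j.castSucc) (f (Fin.last _))

/-- The permutation `σ` of the factors of a power: the `i`-th component is the `σ i`-th
projection. -/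
noncomputable def tau (X : 𝒱.Obj) (n : ℕ) (σ : Equiv.Perm (Fin (n + 1))) : pw X n ⟶ pw X n :=
  liftN X n fun i => prj X n (σ i)

/-- The external product of the self-correspondences `Γ i` of `X`, `i = 0, …, n`. -/
noncomputable def tensN (C : TheoryData.{u, v, 0} 𝒱 ℚ) (X : 𝒱.Obj) : ∀ n : ℕ,
    (Fin (n + 1) → C.A (X.prod X)) → C.A ((pw X n).prod (pw X n))
  | 0, Γ => Γ 0
  | n + 1, Γ => tens C (X := pw X n) (Y := pw X n) (Z := X) (W := X)
      (tensN C X n fun i => Γ i.castSucc) (Γ (Fin.last _))

end Pool.Agent.U981.EQ
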